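import Mathlib

set_option autoImplicit false

/-!
# A Chebyshev type bound
-/

namespace Pool.Agent.Helper42.WB

open Finset Real

/-- partial summation -/
lemma vm_partial {c : ℝ} (hc : ∀ n : ℕ, Chebyshev.psi n ≤ c * n) (N : ℕ) (hN : 1 ≤ N) :
    ∑ n ∈ Finset.range (N + 1), ArithmeticFunction.vonMangoldt n / Real.sqrt n ≤
      Chebyshev.psi N / Real.sqrt N + c * (Real.sqrt N - 1) := by
  have hstep : ∀ n : ℕ, Chebyshev.psi ((n + 1 : ℕ) : ℝ) = Chebyshev.psi n + ArithmeticFunction.vonMangoldt (n + 1) := by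
    intro n
    rw [Chebyshev.psi_eq_sum_Icc, Chebyshev.psi_eq_sum_Icc]
    simp only [Nat.floor_natCast]
    rw [Finset.sum_Icc_succ_top (by omega)]
  induction N, hN using Nat.le_induction with
  | base =>
    simp [Finset.sum_range_succ, Chebyshev.psi_one]
  | succ N hN ih =>
    rw [Finset.sum_range_succ, hstep N]
    have hc0 : 0 ≤ c := by
      have h1 := hc 1
      have h2 := Chebyshev.psi_nonneg ((1 : ℕ) : ℝ)
      push_cast at h1 h2
      linarith
    have hNr : (1 : ℝ) ≤ N := by exact_mod_cast hN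
    set a := Real.sqrt N with ha
    set b := Real.sqrt ((N + 1 : ℕ) : ℝ) with hb
    have ha2 : a ^ 2 = N := Real.sq_sqrt (by positivity)
    have hb2 : b ^ 2 = N + 1 := by rw [hb, Real.sq_sqrt (by positivity)]; push_cast; ring
    have ha0 : 0 < a := Real.sqrt_pos.mpr (by linarith)
    have hb0 : 0 < b := Real.sqrt_pos.mpr (by positivity)
    have hab : a < b := Real.sqrt_lt_sqrt (by positivity) (by push_cast; linarith)
    have hpsi := hc N
    -- psi N * (1/a - 1/b) ≤ c * (b - a)
    have key : Chebyshev.psi N / a - Chebyshev.psi N / b ≤ c * (b - a) := by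
      have e1 : Chebyshev.psi N / a - Chebyshev.psi N / b = Chebyshev.psi N * ((b - a) / (a * b)) := by
        field_simp
      rw [e1]
      have h3 : 0 ≤ (b - a) / (a * b) := by
        have : 0 ≤ b - a := by linarith
        positivity
      calc Chebyshev.psi N * ((b - a) / (a * b)) ≤ (c * N) * ((b - a) / (a * b)) := by gcongr
        _ = c * (b - a) * (a / b) := by
          rw [← ha2]
          field_simp
        _ ≤ c * (b - a) * 1 := by
          have : a / b ≤ 1 := by rw [div_le_one hb0]; exact hab.le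
          have h4 : 0 ≤ c * (b - a) := mul_nonneg hc0 (by linarith)
          exact mul_le_mul_of_nonneg_left this h4
        _ = c * (b - a) := mul_one _
    rw [add_div]
    linarith

theorem vm_sum_le : ∃ C : ℝ, 0 < C ∧ ∀ ℓ : ℝ, 0 ≤ ℓ →
    ∑ n ∈ Finset.range (⌊Real.exp ℓ⌋₊ + 1), ArithmeticFunction.vonMangoldt n / Real.sqrt n ≤
      C * Real.exp (ℓ / 2) := by
  set c : ℝ := Real.log 4 + 4 with hc
  have hc0 : 0 < c := by have := Real.log_nonneg (show (1 : ℝ) ≤ 4 by norm_num); linarith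
  refine ⟨2 * c, by positivity, fun ℓ hℓ => ?_⟩
  have h1 : (1 : ℝ) ≤ Real.exp ℓ := Real.one_le_exp hℓ
  have hN : 1 ≤ ⌊Real.exp ℓ⌋₊ := Nat.one_le_floor_iff _ |>.mpr h1
  set N := ⌊Real.exp ℓ⌋₊ with hNd
  have h2 := vm_partial (c := c) (fun n => Chebyshev.psi_le_const_mul_self (by positivity)) N hN
  have h3 : (N : ℝ) ≤ Real.exp ℓ := Nat.floor_le (by positivity)
  have h4 : Real.sqrt N ≤ Real.exp (ℓ / 2) := by
    rw [show Real.exp (ℓ / 2) = Real.sqrt (Real.exp ℓ) by rw [Real.sqrt_eq_rpow, ← Real.exp_mul]; ring_nf]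
    exact Real.sqrt_le_sqrt h3
  have h5 : Chebyshev.psi N / Real.sqrt N ≤ c * Real.sqrt N := by
    have hNr : (1 : ℝ) ≤ N := by exact_mod_cast hN
    rw [div_le_iff₀ (Real.sqrt_pos.mpr (by linarith)), mul_assoc, Real.mul_self_sqrt (by positivity)]
    exact Chebyshev.psi_le_const_mul_self (by positivity)
  nlinarith [Real.sqrt_nonneg (N : ℝ)]

end Pool.Agent.Helper42.WB
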