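import Pool.Agent.Helper42.WB.Rz
import Pool.Agent.Helper42.WB.Ch

set_option autoImplicit false

/-!
# The lower bound from the explicit formula
-/

namespace Pool.Agent.Helper42.WB

open Complex Filter Topology Set MeasureTheory
open scoped ComplexConjugate ContDiff
open Pool.Agent.Helper61.W
open Pool.Agent.V11271.LI (Zr mm cfg_zeta zz)

variable {g : ℝ → ℂ}

/-- the total energy -/
noncomputable def en (g : ℝ → ℂ) : ℝ := (corr g 0).re

lemma corr_zero_en (g : ℝ → ℂ) : corr g 0 = ((en g : ℝ) : ℂ) := by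
  unfold en
  rw [corr_zero, Complex.ofReal_re]

lemma en_eq_sq (g : ℝ → ℂ) : en g = ∫ y : ℝ, ‖g y‖ ^ 2 := by
  unfold en
  rw [corr_zero, Complex.ofReal_re]

lemma en_eq (h : TF g) : ∫ t, den g t = 2 * Real.pi * en g := by
  have h1 := den_inv h 0
  rw [corr_zero_en] at h1
  have h2 : ∫ t : ℝ, ((den g t : ℝ) : ℂ) * cexp (-(t * I) * ((0 : ℝ) : ℂ)) = ((∫ t, den g t : ℝ) : ℂ) := by
    rw [← integral_complex_ofReal]
    congr 1
    funext t
    simp
  rw [h2] at h1
  exact_mod_cast h1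

lemma en_nonneg (g : ℝ → ℂ) : 0 ≤ en g := by
  rw [en_eq_sq]
  exact integral_nonneg fun y => by positivity

lemma corr_le (h : TF g) (u : ℝ) : ‖corr g u‖ ≤ en g := by
  have h1 := den_inv h u
  have h2 : ‖(2 * Real.pi * corr g u : ℂ)‖ ≤ 2 * Real.pi * en g := by
    rw [← h1, ← en_eq h]
    refine norm_integral_le_of_norm_le (integrable_den0 h) (Eventually.of_forall fun t => ?_)
    rw [norm_mul, Complex.norm_real, Real.norm_of_nonneg (den_nonneg g t), Complex.norm_exp]
    simp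
  rw [norm_mul, norm_mul, Complex.norm_real, Real.norm_of_nonneg Real.pi_pos.le] at h2
  have h3 : ‖(2 : ℂ)‖ = 2 := by simp
  rw [h3] at h2
  exact le_of_mul_le_mul_left h2 (by positivity)

lemma corr_re_le (h : TF g) (u : ℝ) : |(corr g u).re| ≤ en g :=
  (Complex.abs_re_le_norm _).trans (corr_le h u)

/-- the polar part -/
lemma polar_le (h : TF g) {ℓ : ℝ} (hℓ : 0 ≤ ℓ) (hs : ∀ u, ℓ < |u| → corr g u = 0) :
    |∫ u in Ioi (0 : ℝ), (corr g u).re * Real.exp (1 / 2 * u)| ≤ 2 * Real.exp (ℓ / 2) * en g := by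
  have h0 := en_nonneg g
  have hi : IntegrableOn (fun u : ℝ => en g * Real.exp (1 / 2 * u)) (Ioc 0 ℓ) := by
    apply IntegrableOn.mono_set (t := Icc 0 ℓ)
    · exact (Continuous.continuousOn (by fun_prop)).integrableOn_compact isCompact_Icc
    · exact Ioc_subset_Icc_self
  have h1 : |∫ u in Ioi (0 : ℝ), (corr g u).re * Real.exp (1 / 2 * u)| ≤
      ∫ u in Ioi (0 : ℝ), (Ioc 0 ℓ).indicator (fun u : ℝ => en g * Real.exp (1 / 2 * u)) u := by
    rw [← Real.norm_eq_abs]
    refine norm_integral_le_of_norm_le ?_ ?_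
    · exact (hi.integrable_indicator measurableSet_Ioc).integrableOn
    · rw [ae_restrict_iff' measurableSet_Ioi]
      refine Eventually.of_forall fun u hu => ?_
      have hu0 : 0 < u := hu
      by_cases h2 : u ≤ ℓ
      · rw [indicator_of_mem (show u ∈ Ioc 0 ℓ from ⟨hu0, h2⟩), norm_mul, Real.norm_eq_abs,
          Real.norm_of_nonneg (Real.exp_pos _).le]
        have := corr_re_le h u
        gcongr
      · push Not at h2
        rw [hs u (by rwa [abs_of_pos hu0])]
        simp only [Complex.zero_re, zero_mul, norm_zero]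
        exact indicator_nonneg (fun x _ => by positivity) _
  refine h1.trans ?_
  rw [setIntegral_indicator measurableSet_Ioc, show Ioi (0 : ℝ) ∩ Ioc 0 ℓ = Ioc 0 ℓ from
    inter_eq_right.mpr Ioc_subset_Ioi_self, integral_const_mul, ← intervalIntegral.integral_of_le hℓ]
  have h3 : ∫ u in (0 : ℝ)..ℓ, Real.exp (1 / 2 * u) = 2 * (Real.exp (ℓ / 2) - 1) := by
    rw [intervalIntegral.integral_comp_mul_left (f := fun x => Real.exp x) (by norm_num : (1 / 2 : ℝ) ≠ 0)]
    rw [integral_exp]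
    simp only [mul_zero, Real.exp_zero, smul_eq_mul]
    rw [show 1 / 2 * ℓ = ℓ / 2 by ring]
    norm_num
  rw [h3]
  nlinarith

/-- one archimedean term on the spectral side -/
lemma arch_term (h : TF g) {x : ℝ} (hx : 0 < x) :
    2 * ∫ u in Ioi (0 : ℝ), (corr g u).re * Real.exp (-x * u) =
      1 / (2 * Real.pi) * ∫ t, den g t * (2 * x / (x ^ 2 + t ^ 2)) := by
  have h1 := line_frac h.corr 0 x (by linarith)
  have hi : Integrable (fun u : ℝ => corr g u * cexp (-x * u)) := h.corr.integrable (-x)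
  have h2 : (∫ u in Ioi (0 : ℝ), corr g u * cexp (-x * u)).re =
      ∫ u in Ioi (0 : ℝ), (corr g u).re * Real.exp (-x * u) := by
    have := (reCLM.integral_comp_comm hi.integrableOn (μ := volume.restrict (Ioi 0))).symm
    simp only [Complex.reCLM_apply] at this
    rw [this]
    congr 1
    funext u
    have e : cexp (-x * u) = ((Real.exp (-x * u) : ℝ) : ℂ) := by push_cast; rfl
    rw [e, Complex.re_mul_ofReal]
  have hk : Integrable (fun y : ℝ => LT (corr g) (((0 : ℝ) : ℂ) + y * I) * (1 / (((0 : ℝ) : ℂ) + y * I + x))) := by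
    have hne : ∀ y : ℝ, (((0 : ℝ) : ℂ) + y * I + x) ≠ 0 := by
      intro y hy
      have := congrArg Complex.re hy
      simp at this
      linarith
    refine LT_line_integrable h.corr 0 (continuous_const.div (by fun_prop) hne) (K := 1 / x) fun y => ?_
    rw [norm_div, norm_one]
    have h3 : x ≤ ‖(((0 : ℝ) : ℂ) + y * I + x)‖ := by
      have := Complex.re_le_norm (((0 : ℝ) : ℂ) + y * I + x)
      simpa using this
    calc 1 / ‖(((0 : ℝ) : ℂ) + y * I + x)‖ ≤ 1 / x := by gcongr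
      _ ≤ 1 / x * (1 + y ^ 2) := by
        have : 0 ≤ 1 / x := by positivity
        nlinarith [sq_nonneg y]
  have h4 : (∫ y : ℝ, LT (corr g) (((0 : ℝ) : ℂ) + y * I) * (1 / (((0 : ℝ) : ℂ) + y * I + x))).re =
      ∫ t, den g t * (x / (x ^ 2 + t ^ 2)) := by
    have := (reCLM.integral_comp_comm hk).symm
    simp only [Complex.reCLM_apply] at this
    rw [this]
    congr 1
    funext t
    rw [den_eq h, Complex.re_ofReal_mul]
    congr 1
    have e : (((0 : ℝ) : ℂ) + t * I + x) = ⟨x, t⟩ := by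
      apply Complex.ext <;> simp
    rw [e, one_div, Complex.inv_re, Complex.normSq_mk]
    simp only
    congr 1
    ring
  rw [h1] at h4
  have h5 : (2 * Real.pi * ∫ u in Ioi (0 : ℝ), corr g u * cexp (-x * u) : ℂ).re =
      2 * Real.pi * ∫ u in Ioi (0 : ℝ), (corr g u).re * Real.exp (-x * u) := by
    have e : (2 * Real.pi : ℂ) = ((2 * Real.pi : ℝ) : ℂ) := by push_cast; rfl
    rw [e, Complex.re_ofReal_mul, h2]
  rw [h5] at h4
  have h6 : ∫ t, den g t * (2 * x / (x ^ 2 + t ^ 2)) = 2 * ∫ t, den g t * (x / (x ^ 2 + t ^ 2)) := by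
    rw [← integral_const_mul]
    congr 1
    funext t
    ring
  rw [h6, ← h4]
  have hp := Real.pi_pos
  field_simp

/-- the archimedean weights -/
noncomputable def aw (n : ℕ) (t : ℝ) : ℝ :=
  1 / ((n : ℝ) + 1) - 2 * (2 * n + 5 / 2) / ((2 * n + 5 / 2) ^ 2 + t ^ 2)

lemma aw_nonneg (n : ℕ) (t : ℝ) : 0 ≤ aw n t := by
  unfold aw
  rw [sub_nonneg, div_le_div_iff₀ (by positivity) (by positivity)]
  have hn : (0 : ℝ) ≤ n := Nat.cast_nonneg n
  nlinarith [sq_nonneg t]

lemma aw_le_one (n : ℕ) (t : ℝ) : aw n t ≤ 1 := by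
  unfold aw
  have hn : (0 : ℝ) ≤ n := Nat.cast_nonneg n
  have h1 : 1 / ((n : ℝ) + 1) ≤ 1 := by
    rw [div_le_one (by positivity)]
    linarith
  have h2 : 0 ≤ 2 * (2 * n + 5 / 2) / ((2 * n + 5 / 2) ^ 2 + t ^ 2) := by positivity
  linarith

lemma aw_cont (n : ℕ) : Continuous (aw n) := by
  unfold aw
  refine continuous_const.sub (continuous_const.div (by fun_prop) fun t => ?_)
  positivity

lemma arch_eq (h : TF g) (n : ℕ) :
    (corr g 0).re / (n + 1) - 2 * ∫ u in Ioi (0 : ℝ), (corr g u).re * Real.exp (-(2 * n + 5 / 2) * u) =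
      1 / (2 * Real.pi) * ∫ t, den g t * aw n t := by
  have hn : (0 : ℝ) ≤ n := Nat.cast_nonneg n
  rw [arch_term h (x := 2 * n + 5 / 2) (by positivity)]
  have e0 : (corr g 0).re = 1 / (2 * Real.pi) * ∫ t, den g t := by
    rw [en_eq h]
    unfold en
    have hp := Real.pi_pos
    field_simp
  have i1 : Integrable (fun t => den g t * (1 / ((n : ℝ) + 1))) := (integrable_den0 h).mul_const _
  have i2 : Integrable (fun t => den g t * (2 * (2 * n + 5 / 2) / ((2 * n + 5 / 2) ^ 2 + t ^ 2))) := by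
    have := i1.sub (integrable_den1 h (aw_cont n) (K := 1) (fun y => by
      rw [abs_of_nonneg (aw_nonneg n y)]; exact aw_le_one n y))
    refine this.congr (Eventually.of_forall fun t => ?_)
    simp only [Pi.sub_apply]
    unfold aw
    ring
  have e1 : ∫ t, den g t * aw n t = (∫ t, den g t) * (1 / ((n : ℝ) + 1)) -
      ∫ t, den g t * (2 * (2 * n + 5 / 2) / ((2 * n + 5 / 2) ^ 2 + t ^ 2)) := by
    rw [← integral_mul_const, ← integral_sub i1 i2]
    congr 1
    funext t
    unfold aw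
    ring
  rw [e1, e0]
  ring

lemma arch_summable (h : TF g) : Summable fun n : ℕ =>
    ((corr g 0).re / (n + 1) - 2 * ∫ u in Ioi (0 : ℝ), (corr g u).re * Real.exp (-(2 * n + 5 / 2) * u)) := by
  have s1 := (line_ar h.corr).summable
  have s2 := (line_ar h.corr.neg_arg).summable
  have s3 := Complex.reCLM.summable (s1.add s2)
  refine s3.congr fun n => ?_
  simp only [Complex.reCLM_apply]
  have hn1 : ((n : ℂ) + 1) ≠ 0 := by exact_mod_cast Nat.succ_ne_zero n
  have i1 : IntegrableOn (fun u : ℝ => corr g u * cexp (-(2 * n + 5 / 2) * u)) (Ioi 0) :=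
    (h.corr.integrable _).integrableOn
  have i2 : IntegrableOn (fun u : ℝ => corr g (-u) * cexp (-(2 * n + 5 / 2) * u)) (Ioi 0) :=
    (h.corr.neg_arg.integrable _).integrableOn
  have e1 : (∫ u in Ioi (0 : ℝ), corr g u * cexp (-(2 * n + 5 / 2) * u)) +
      (∫ u in Ioi (0 : ℝ), corr g (-u) * cexp (-(2 * n + 5 / 2) * u)) =
      ((2 * ∫ u in Ioi (0 : ℝ), (corr g u).re * Real.exp (-(2 * n + 5 / 2) * u) : ℝ) : ℂ) := by
    rw [← integral_add i1 i2, ← integral_const_mul, ← integral_complex_ofReal]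
    congr 1
    funext u
    rw [← add_mul, corr_add]
    push_cast
    ring
  have e2 : corr g 0 / (2 * ((n : ℂ) + 1)) - (∫ u in Ioi (0 : ℝ), corr g u * cexp (-(2 * n + 5 / 2) * u)) +
      (corr g (-0) / (2 * ((n : ℂ) + 1)) - ∫ u in Ioi (0 : ℝ), corr g (-u) * cexp (-(2 * n + 5 / 2) * u)) =
      (((corr g 0).re / (n + 1) - 2 * ∫ u in Ioi (0 : ℝ), (corr g u).re * Real.exp (-(2 * n + 5 / 2) * u) : ℝ) : ℂ) := by
    rw [neg_zero, corr_zero_en]
    have e3 : ∀ A B : ℂ, ((en g : ℝ) : ℂ) / (2 * ((n : ℂ) + 1)) - A + (((en g : ℝ) : ℂ) / (2 * ((n : ℂ) + 1)) - B) =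
        ((en g : ℝ) : ℂ) / ((n : ℂ) + 1) - (A + B) := by
      intro A B
      field_simp
      ring
    rw [e3, e1]
    push_cast
    simp
  rw [e2, Complex.ofReal_re]

/-- **The lower bound.** -/
theorem weil_lower (h : TF g) {ℓ : ℝ} (hℓ : 0 ≤ ℓ) (hs : ∀ u, ℓ < |u| → corr g u = 0) (N : ℕ) :
    1 / (2 * Real.pi) * (∫ t, den g t * ∑ n ∈ Finset.range N, aw n t) -
      (4 * Real.exp (ℓ / 2) + 3 + 2 * ∑ n ∈ Finset.range (⌊Real.exp ℓ⌋₊ + 1),
        ArithmeticFunction.vonMangoldt n / Real.sqrt n) * en g ≤ (∑' ρ : Zr, tm (corr g) ρ).re := by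
  rw [weil_eq h, Complex.ofReal_re]
  unfold JJ
  have h0 := en_nonneg g
  -- polar
  have hP := (abs_le.mp (polar_le h hℓ hs)).1
  -- constants
  have hC : (Real.eulerMascheroniConstant + Real.log Real.pi) * (corr g 0).re ≤ 3 * en g := by
    have h1 := Real.eulerMascheroniConstant_lt_two_thirds
    have h2 : Real.log Real.pi ≤ Real.pi - 1 := Real.log_le_sub_one_of_pos Real.pi_pos
    have h3 := Real.pi_lt_d2
    have : Real.eulerMascheroniConstant + Real.log Real.pi ≤ 3 := by linarith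
    exact mul_le_mul_of_nonneg_right this h0
  -- archimedean
  have hA : 1 / (2 * Real.pi) * (∫ t, den g t * ∑ n ∈ Finset.range N, aw n t) ≤
      ∑' n : ℕ, ((corr g 0).re / (n + 1) - 2 * ∫ u in Ioi (0 : ℝ), (corr g u).re * Real.exp (-(2 * n + 5 / 2) * u)) := by
    have h1 : 1 / (2 * Real.pi) * (∫ t, den g t * ∑ n ∈ Finset.range N, aw n t) =
        ∑ n ∈ Finset.range N, ((corr g 0).re / (n + 1) -
          2 * ∫ u in Ioi (0 : ℝ), (corr g u).re * Real.exp (-(2 * n + 5 / 2) * u)) := by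
      have e1 : ∀ t, den g t * ∑ n ∈ Finset.range N, aw n t = ∑ n ∈ Finset.range N, den g t * aw n t :=
        fun t => Finset.mul_sum _ _ _
      rw [integral_congr_ae (Eventually.of_forall e1), integral_finsetSum _ (fun n _ =>
        integrable_den1 h (aw_cont n) (K := 1) (fun y => by
          rw [abs_of_nonneg (aw_nonneg n y)]; exact aw_le_one n y)), Finset.mul_sum]
      exact Finset.sum_congr rfl fun n _ => (arch_eq h n).symm
    rw [h1]
    refine (arch_summable h).sum_le_tsum _ fun n _ => ?_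
    rw [arch_eq h n]
    have : 0 ≤ ∫ t, den g t * aw n t := integral_nonneg fun t => mul_nonneg (den_nonneg g t) (aw_nonneg n t)
    positivity
  -- primes
  have hΛ : ∑' n : ℕ, 2 * (ArithmeticFunction.vonMangoldt n / Real.sqrt n) * (corr g (Real.log n)).re ≤
      (2 * ∑ n ∈ Finset.range (⌊Real.exp ℓ⌋₊ + 1), ArithmeticFunction.vonMangoldt n / Real.sqrt n) * en g := by
    rw [tsum_eq_sum (s := Finset.range (⌊Real.exp ℓ⌋₊ + 1))]
    · rw [Finset.mul_sum, Finset.sum_mul]
      refine Finset.sum_le_sum fun n _ => ?_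
      have h1 := (abs_le.mp (corr_re_le h (Real.log n))).2
      have h2 : 0 ≤ 2 * ((ArithmeticFunction.vonMangoldt n : ℝ) / Real.sqrt n) := by
        have := ArithmeticFunction.vonMangoldt_nonneg (n := n)
        positivity
      exact mul_le_mul_of_nonneg_left h1 h2
    · intro n hn
      rw [Finset.mem_range, not_lt] at hn
      have h1 : Real.exp ℓ < n := by
        have := Nat.lt_floor_add_one (Real.exp ℓ)
        have h2 : ((⌊Real.exp ℓ⌋₊ + 1 : ℕ) : ℝ) ≤ n := by exact_mod_cast hn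
        push_cast at h2
        linarith
      have h2 : ℓ < Real.log n := by
        rw [Real.lt_log_iff_exp_lt (lt_trans (Real.exp_pos _) h1)]
        exact h1
      rw [hs _ (lt_of_lt_of_le h2 (le_abs_self _))]
      simp
  linarith

/-- the archimedean weight is large at high frequencies -/
lemma aw_sum_ge {N : ℕ} (hN : 1 ≤ N) {t : ℝ} (ht : 3 * N ≤ |t|) :
    Real.log (N + 1) - 1 ≤ ∑ n ∈ Finset.range N, aw n t := by
  have hNr : (1 : ℝ) ≤ N := by exact_mod_cast hN
  have ht0 : 0 < |t| := by linarith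
  have h1 : Real.log (N + 1) ≤ ∑ n ∈ Finset.range N, 1 / ((n : ℝ) + 1) := by
    have := log_add_one_le_harmonic N
    unfold harmonic at this
    push_cast at this
    simpa [one_div] using this
  have h2 : ∑ n ∈ Finset.range N, 2 * (2 * n + 5 / 2) / ((2 * n + 5 / 2) ^ 2 + t ^ 2) ≤ 1 := by
    have h3 : ∀ n ∈ Finset.range N, 2 * (2 * (n : ℝ) + 5 / 2) / ((2 * n + 5 / 2) ^ 2 + t ^ 2) ≤
        (4 * N + 1) / t ^ 2 := by
      intro n hn
      have hn' : (n : ℝ) + 1 ≤ N := by exact_mod_cast Finset.mem_range.mp hn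
      have ht2 : 0 < t ^ 2 := by rw [← sq_abs]; positivity
      have hn0 : (0 : ℝ) ≤ n := Nat.cast_nonneg n
      apply div_le_div₀ (by positivity) (by linarith) ht2
      nlinarith
    refine (Finset.sum_le_sum h3).trans ?_
    rw [Finset.sum_const, Finset.card_range, nsmul_eq_mul]
    have ht2 : (3 * N : ℝ) ^ 2 ≤ t ^ 2 := by
      rw [← sq_abs t]
      gcongr
    have ht3 : 0 < t ^ 2 := by nlinarith
    rw [← mul_div_assoc, div_le_one ht3]
    nlinarith
  have h4 : ∑ n ∈ Finset.range N, aw n t = ∑ n ∈ Finset.range N, 1 / ((n : ℝ) + 1) -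
      ∑ n ∈ Finset.range N, 2 * (2 * n + 5 / 2) / ((2 * n + 5 / 2) ^ 2 + t ^ 2) := by
    rw [← Finset.sum_sub_distrib]
    rfl
  rw [h4]
  linarith

end Pool.Agent.Helper42.WB
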