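import Pool.Agent.Helper42.WB.Fl
import Pool.Agent.Helper42.WB.Ex

set_option autoImplicit false

/-!
# The zeros far away
-/

namespace Pool.Agent.Helper42.WB

open Complex Filter Topology Set MeasureTheory
open scoped ComplexConjugate ContDiff
open Pool.Agent.Helper61.W
open Pool.Agent.V11271.LI (Zr mm cfg_zeta zz)

variable {g : ℝ → ℂ}

lemma LT_corr_flm {b : ℝ} (hb : 0 < b) (h : TF g) (m : ℕ) (z : ℂ) :
    LT (corr (flm b m g)) z = (1 - Sb b z ^ 4) ^ (2 * m) * LT (corr g) z := by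
  rw [LT_corr (TF.flm b h m), LT_corr h, LT_flm b h, LT_flm b h, Sb_symm hb, map_mul, map_pow, map_sub,
    map_pow, Complex.conj_conj, map_one, two_mul, pow_add]
  ring

lemma tm_flm {b : ℝ} (hb : 0 < b) (h : TF g) (m : ℕ) (ρ : Zr) :
    tm (corr (flm b m g)) ρ = (1 - Sb b ((ρ : ℂ) - 1 / 2) ^ 4) ^ (2 * m) * tm (corr g) ρ := by
  unfold tm
  rw [LT_corr_flm hb h]
  ring

/-- the Laplace transform of a function with small support -/
lemma LT_sq_le (h : TF g) {c : ℝ} (hc : 0 < c) (hs : ∀ x, x ∉ Icc (-c) c → g x = 0) {z : ℂ}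
    (hz : |z.re| ≤ 1 / 2) : ‖LT g z‖ ^ 2 ≤ 2 * c * Real.exp c * en g := by
  have hcont := h.cont
  have h2int : Integrable (fun x => ‖g x‖ ^ 2) :=
    Continuous.integrable_of_hasCompactSupport (by fun_prop) (by
      have := h.supp.norm
      exact this.comp_left (g := fun y : ℝ => y ^ 2) (by simp))
  have h1int : Integrable (fun x => ‖g x‖) :=
    Continuous.integrable_of_hasCompactSupport (by fun_prop) h.supp.norm
  have hfin : volume.real (Icc (-c) c) = 2 * c := by
    rw [Real.volume_real_Icc_of_le (by linarith)]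
    ring
  have e1 : ∫ x, ‖g x‖ = ∫ x in Icc (-c) c, ‖g x‖ := by
    rw [setIntegral_eq_integral_of_forall_compl_eq_zero]
    intro x hx
    rw [hs x hx, norm_zero]
  have e2 : ∫ x, ‖g x‖ ^ 2 = ∫ x in Icc (-c) c, ‖g x‖ ^ 2 := by
    rw [setIntegral_eq_integral_of_forall_compl_eq_zero]
    intro x hx
    rw [hs x hx, norm_zero]
    norm_num
  have hI : ‖LT g z‖ ≤ Real.exp (c / 2) * ∫ x, ‖g x‖ := by
    unfold Helper61.W.LT
    rw [← integral_const_mul]
    refine norm_integral_le_of_norm_le (h1int.const_mul _) (Eventually.of_forall fun x => ?_)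
    by_cases hx : x ∈ Icc (-c) c
    · rw [norm_mul, mul_comm, Complex.norm_exp]
      gcongr
      have e3 : (z * x).re = z.re * x := by simp
      rw [e3]
      have h3 : |x| ≤ c := abs_le.mpr hx
      calc z.re * x ≤ |z.re * x| := le_abs_self _
        _ = |z.re| * |x| := abs_mul _ _
        _ ≤ 1 / 2 * c := by gcongr
        _ = c / 2 := by ring
    · rw [hs x hx]
      simp
  set J := ∫ x, ‖g x‖ with hJ
  have hcs : J ^ 2 ≤ 2 * c * en g := by
    have h4 : 0 ≤ ∫ x in Icc (-c) c, (‖g x‖ - J / (2 * c)) ^ 2 := integral_nonneg fun x => sq_nonneg _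
    have e4 : ∫ x in Icc (-c) c, (‖g x‖ - J / (2 * c)) ^ 2 =
        (∫ x in Icc (-c) c, ‖g x‖ ^ 2) - 2 * (J / (2 * c)) * (∫ x in Icc (-c) c, ‖g x‖) +
          (J / (2 * c)) ^ 2 * (2 * c) := by
      have e5 : ∀ x, (‖g x‖ - J / (2 * c)) ^ 2 = (‖g x‖ ^ 2 - 2 * (J / (2 * c)) * ‖g x‖) + (J / (2 * c)) ^ 2 :=
        fun x => by ring
      rw [integral_congr_ae (Eventually.of_forall e5)]
      have i1 : IntegrableOn (fun x => ‖g x‖ ^ 2) (Icc (-c) c) := h2int.integrableOn
      have i2 : IntegrableOn (fun x => 2 * (J / (2 * c)) * ‖g x‖) (Icc (-c) c) := (h1int.const_mul _).integrableOn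
      have i3 : IntegrableOn (fun _ : ℝ => (J / (2 * c)) ^ 2) (Icc (-c) c) :=
        integrableOn_const (by rw [Real.volume_Icc]; exact ENNReal.ofReal_ne_top)
      have i12 : IntegrableOn (fun x => ‖g x‖ ^ 2 - 2 * (J / (2 * c)) * ‖g x‖) (Icc (-c) c) := i1.sub i2
      rw [integral_add i12 i3, integral_sub i1 i2, integral_const_mul, setIntegral_const, hfin,
        smul_eq_mul]
      ring
    rw [e4, ← e1, ← e2, ← en_eq_sq] at h4
    have e6 : en g - 2 * (J / (2 * c)) * J + (J / (2 * c)) ^ 2 * (2 * c) = en g - J ^ 2 / (2 * c) := by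
      field_simp
      ring
    rw [e6, sub_nonneg, div_le_iff₀ (by positivity)] at h4
    linarith
  have hJ0 : 0 ≤ J := integral_nonneg fun x => norm_nonneg _
  have e7 : Real.exp (c / 2) ^ 2 = Real.exp c := by
    rw [← Real.exp_nat_mul]
    congr 1
    push_cast
    ring
  calc ‖LT g z‖ ^ 2 ≤ (Real.exp (c / 2) * J) ^ 2 := by gcongr
    _ = Real.exp c * J ^ 2 := by rw [mul_pow, e7]
    _ ≤ Real.exp c * (2 * c * en g) := by gcongr
    _ = _ := by ring

lemma pow_near {w : ℂ} {ε : ℝ} {n : ℕ} (hw : ‖w‖ ≤ ε) (hε : n * ε ≤ 1 / 2) :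
    ‖1 - (1 - w) ^ n‖ ≤ 2 * n * ε ∧ 1 / 2 ≤ ‖(1 - w) ^ n‖ := by
  have hε0 : 0 ≤ ε := (norm_nonneg _).trans hw
  have h1 : ∀ i ≤ n, ‖(1 - w) ^ i‖ ≤ 2 := by
    intro i hi
    rw [norm_pow]
    have h2 : ‖1 - w‖ ≤ Real.exp ε := by
      refine (norm_sub_le _ _).trans ?_
      rw [norm_one]
      have := Real.add_one_le_exp ε
      linarith
    calc ‖1 - w‖ ^ i ≤ (Real.exp ε) ^ i := by gcongr
      _ = Real.exp (i * ε) := by rw [← Real.exp_nat_mul]
      _ ≤ Real.exp (1 / 2) := by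
        apply Real.exp_le_exp.mpr
        have : (i : ℝ) ≤ n := by exact_mod_cast hi
        nlinarith
      _ ≤ 2 := by
        have h1 : Real.exp (1 / 2) ^ 2 = Real.exp 1 := by
          rw [← Real.exp_nat_mul]; norm_num
        have h2 := Real.exp_one_lt_d9
        nlinarith [Real.exp_pos (1 / 2)]
  constructor
  · have h3 := mul_neg_geom_sum (1 - w) n
    rw [← h3, show (1 : ℂ) - (1 - w) = w by ring, norm_mul]
    have h4 : ‖∑ i ∈ Finset.range n, (1 - w) ^ i‖ ≤ n * 2 := by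
      refine (norm_sum_le_of_le _ (fun i hi => h1 i (Finset.mem_range.mp hi).le)).trans ?_
      rw [Finset.sum_const, Finset.card_range, nsmul_eq_mul]
    calc ‖w‖ * ‖∑ i ∈ Finset.range n, (1 - w) ^ i‖ ≤ ε * (n * 2) := by gcongr
      _ = 2 * n * ε := by ring
  · rw [norm_pow]
    rcases Nat.eq_zero_or_pos n with hn | hn
    · subst hn
      norm_num
    have hn1 : (1 : ℝ) ≤ n := by exact_mod_cast hn
    have h5 : 1 - ε ≤ ‖1 - w‖ := by
      have := norm_sub_norm_le (1 : ℂ) w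
      rw [norm_one] at this
      linarith
    have hε1 : ε ≤ 1 / 2 := by nlinarith
    have h6 := one_add_mul_le_pow (a := -ε) (by linarith) n
    calc (1 / 2 : ℝ) ≤ 1 + n * -ε := by linarith
      _ ≤ (1 + -ε) ^ n := h6
      _ ≤ ‖1 - w‖ ^ n := by
        apply pow_le_pow_left₀ (by linarith)
        linarith

/-- the constant of the zeros -/
noncomputable def ZZ : ℝ := ∑' ρ : Zr, mm ρ / (1 + |(zz ρ).im|) ^ (2 : ℝ)

lemma ZZ_nonneg : 0 ≤ ZZ := tsum_nonneg fun ρ => by
  have := cfg_zeta.m_nonneg ρ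
  positivity

/-- **Comparison of the two functionals.** -/
theorem compare (h : TF g) {L : ℝ} (hL : 0 < L) (hs : ∀ x, x ∉ Icc (-(L / 2)) (L / 2) → g x = 0)
    {n : ℕ} (hn : 1 ≤ n) {H : ℝ} (hH1 : 1 ≤ H) (hHn : 64 * n * (16 * n) ^ 4 * 2 ≤ H ^ 4)
    (hz : ∀ ρ : Zr, |(ρ : ℂ).im| < H → (ρ : ℂ).re ≠ 1 / 2 →
      LT g ((ρ : ℂ) - 1 / 2) = 0 ∨ LT g (1 / 2 - conj (ρ : ℂ)) = 0) :
    (∑' ρ : Zr, tm (corr (flm (1 / (16 * n)) (2 * n) g)) ρ).re -
      16 * n * (64 * (16 * n) ^ 4 / H ^ 2) * ((L + 1) * Real.exp ((L + 1) / 2)) * ZZ *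
        en (flm (1 / (16 * n)) (2 * n) g) ≤ (∑' ρ : Zr, tm (corr g) ρ).re := by
  have hnr : (1 : ℝ) ≤ n := by exact_mod_cast hn
  set b : ℝ := 1 / (16 * n) with hb
  have hb0 : 0 < b := by positivity
  have hb1 : b ≤ 1 := by
    rw [hb, div_le_one (by positivity)]
    linarith
  set q := flm b (2 * n) g with hq
  have hqT : TF q := TF.flm b h (2 * n)
  have hqs : ∀ x, x ∉ Icc (-((L + 1) / 2)) ((L + 1) / 2) → q x = 0 := by
    have h1 := flm_supp hb0 hs (2 * n)
    have e : L / 2 + 4 * b * ((2 * n : ℕ) : ℝ) = (L + 1) / 2 := by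
      rw [hb]
      push_cast
      field_simp
      ring
    rwa [e] at h1
  have hc0 : 0 < (L + 1) / 2 := by linarith
  set B : ℝ := (L + 1) * Real.exp ((L + 1) / 2) * en q with hB
  have hB0 : 0 ≤ B := by have := en_nonneg q; positivity
  have hLT : ∀ z : ℂ, |z.re| ≤ 1 / 2 → ‖LT q z‖ ^ 2 ≤ B := by
    intro z hz
    refine (LT_sq_le hqT hc0 hqs hz).trans (le_of_eq ?_)
    rw [hB]
    ring
  have S1 := summable_tm h.corr
  have S2 := summable_tm hqT.corr
  -- termwise
  set K : ℝ := 16 * n * (64 * (16 * n) ^ 4 / H ^ 2) * B with hK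
  have hK0 : 0 ≤ K := by positivity
  have S3 : Summable (fun ρ : Zr => K * (mm ρ / (1 + |(zz ρ).im|) ^ (2 : ℝ))) :=
    (cfg_zeta.sum 2 (by norm_num)).mul_left K
  have hterm : ∀ ρ : Zr, (tm (corr q) ρ).re - K * (mm ρ / (1 + |(zz ρ).im|) ^ (2 : ℝ)) ≤ (tm (corr g) ρ).re := by
    intro ρ
    have hm : 0 ≤ mm ρ := cfg_zeta.m_nonneg ρ
    have hE0 : 0 ≤ K * (mm ρ / (1 + |(zz ρ).im|) ^ (2 : ℝ)) := by positivity
    have hrel := tm_flm hb0 h (2 * n) ρ
    rw [← hq] at hrel
    have hre1 := ρ.2.2.1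
    have hre2 := ρ.2.2.2
    by_cases hline : (ρ : ℂ).re = 1 / 2
    · -- on the line
      have hu : (ρ : ℂ) - 1 / 2 = (((ρ : ℂ).im : ℝ) : ℂ) * I := by
        apply Complex.ext
        · simp [hline]
        · simp
      have e1 : tm (corr g) ρ = ((mm ρ * den g (ρ : ℂ).im : ℝ) : ℂ) := by
        unfold tm
        rw [hu]
        have := den_eq h (ρ : ℂ).im
        rw [Complex.ofReal_zero, zero_add] at this
        rw [this]
        push_cast
        rfl
      have e2 : tm (corr q) ρ = ((ww (b * (ρ : ℂ).im) ^ (2 * (2 * n)) * (mm ρ * den g (ρ : ℂ).im) : ℝ) : ℂ) := by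
        rw [hrel, e1, hu, Sb_line4 hb0]
        push_cast
        rfl
      rw [e1, e2, Complex.ofReal_re, Complex.ofReal_re]
      have h1 : ww (b * (ρ : ℂ).im) ^ (2 * (2 * n)) ≤ 1 := pow_le_one₀ (ww_nonneg _) (ww_le_one _)
      have h2 : 0 ≤ mm ρ * den g (ρ : ℂ).im := mul_nonneg hm (den_nonneg _ _)
      nlinarith
    · by_cases hlow : |(ρ : ℂ).im| < H
      · -- low zeros off the line
        have h0 : tm (corr g) ρ = 0 := by
          unfold tm
          rw [LT_corr h]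
          have e : -conj ((ρ : ℂ) - 1 / 2) = 1 / 2 - conj (ρ : ℂ) := by
            rw [map_sub]
            have : conj (1 / 2 : ℂ) = 1 / 2 := by
              have : (1 / 2 : ℂ) = ((1 / 2 : ℝ) : ℂ) := by push_cast; rfl
              rw [this, Complex.conj_ofReal]
            rw [this]
            ring
          rw [e]
          rcases hz ρ hlow hline with h1 | h1
          · rw [h1]
            simp
          · rw [h1]
            simp
        rw [hrel, h0, mul_zero]
        simp only [Complex.zero_re]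
        linarith
      · -- high zeros
        push Not at hlow
        have hzre : ((ρ : ℂ) - 1 / 2).re = (ρ : ℂ).re - 1 / 2 := by simp
        have hzim : ((ρ : ℂ) - 1 / 2).im = (ρ : ℂ).im := by simp
        have hare : |((ρ : ℂ) - 1 / 2).re| ≤ 1 / 2 := by
          rw [hzre, abs_le]
          constructor <;> linarith
        obtain ⟨y, hy⟩ : ∃ y, y = |(ρ : ℂ).im| := ⟨_, rfl⟩
        have hyH : H ≤ y := by rw [hy]; exact hlow
        have hy1 : 1 ≤ y := hH1.trans hyH
        have hne : ((ρ : ℂ) - 1 / 2).im ≠ 0 := by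
          rw [hzim]
          intro h0
          rw [h0, abs_zero] at hy
          linarith
        have hS := Sb_norm hb0 hb1 hare hne
        rw [hzim, ← hy] at hS
        set S := Sb b ((ρ : ℂ) - 1 / 2) with hSdef
        set ε : ℝ := (2 / (b * y)) ^ 4 with hε
        have hw : ‖S ^ 4‖ ≤ ε := by
          rw [norm_pow]
          exact pow_le_pow_left₀ (norm_nonneg _) hS 4
        have hεeq : ε = 16 * (16 * n) ^ 4 / y ^ 4 := by
          rw [hε, hb]
          field_simp
          norm_num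
        have hε2 : ((2 * (2 * n) : ℕ) : ℝ) * ε ≤ 1 / 2 := by
          rw [hεeq]
          push_cast
          have h1 : H ^ 4 ≤ y ^ 4 := by gcongr
          have h2 : 0 < y ^ 4 := by positivity
          rw [mul_div_assoc', div_le_iff₀ h2]
          nlinarith
        obtain ⟨hn1, hn2⟩ := pow_near hw hε2
        have hT : ‖tm (corr g) ρ‖ ≤ 2 * ‖tm (corr q) ρ‖ := by
          rw [hrel, norm_mul]
          nlinarith [norm_nonneg (tm (corr g) ρ)]
        have hqn : ‖tm (corr q) ρ‖ ≤ mm ρ * B := by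
          unfold tm
          rw [norm_mul, Complex.norm_real, Real.norm_of_nonneg hm]
          gcongr
          rw [LT_corr hqT, norm_mul, RCLike.norm_conj]
          have h1 := hLT _ hare
          have h2 := hLT (-conj ((ρ : ℂ) - 1 / 2)) (by
            have : (-conj ((ρ : ℂ) - 1 / 2)).re = -((ρ : ℂ) - 1 / 2).re := by simp
            rw [this, abs_neg]
            exact hare)
          nlinarith [sq_nonneg (‖LT q ((ρ : ℂ) - 1 / 2)‖ - ‖LT q (-conj ((ρ : ℂ) - 1 / 2))‖)]
        have hdiff : ‖tm (corr g) ρ - tm (corr q) ρ‖ ≤ 16 * n * ε * (mm ρ * B) := by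
          have e1 : tm (corr g) ρ - tm (corr q) ρ = (1 - (1 - S ^ 4) ^ (2 * (2 * n))) * tm (corr g) ρ := by
            rw [hrel]
            ring
          rw [e1, norm_mul]
          have h0 : 0 ≤ ε := by positivity
          calc ‖1 - (1 - S ^ 4) ^ (2 * (2 * n))‖ * ‖tm (corr g) ρ‖ ≤
                (2 * ((2 * (2 * n) : ℕ) : ℝ) * ε) * (2 * (mm ρ * B)) :=
                mul_le_mul hn1 (by linarith) (norm_nonneg _) (by positivity)
            _ = 16 * n * ε * (mm ρ * B) := by push_cast; ring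
        have hε3 : ε ≤ 64 * (16 * n) ^ 4 / H ^ 2 / (1 + y) ^ 2 := by
          rw [hεeq, div_div, div_le_div_iff₀ (by positivity) (by positivity)]
          have h1 : (1 + y) ^ 2 ≤ 4 * y ^ 2 := by nlinarith
          have h2 : H ^ 2 ≤ y ^ 2 := by gcongr
          have h3 : H ^ 2 * (1 + y) ^ 2 ≤ y ^ 2 * (4 * y ^ 2) := by gcongr
          have h4 : 0 ≤ (16 * (n : ℝ)) ^ 4 := by positivity
          nlinarith
        have hfin : ‖tm (corr g) ρ - tm (corr q) ρ‖ ≤ K * (mm ρ / (1 + |(zz ρ).im|) ^ (2 : ℝ)) := by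
          have e2 : (zz ρ).im = (ρ : ℂ).im := V11271.LI.zz_im ρ
          have e3 : (1 + |(zz ρ).im|) ^ (2 : ℝ) = (1 + y) ^ 2 := by
            rw [e2, ← hy]
            norm_cast
          rw [e3]
          calc ‖tm (corr g) ρ - tm (corr q) ρ‖ ≤ 16 * n * ε * (mm ρ * B) := hdiff
            _ ≤ 16 * n * (64 * (16 * n) ^ 4 / H ^ 2 / (1 + y) ^ 2) * (mm ρ * B) := by gcongr
            _ = K * (mm ρ / (1 + y) ^ 2) := by
              rw [hK]
              ring
        have h5 : (tm (corr q) ρ).re - (tm (corr g) ρ).re ≤ ‖tm (corr g) ρ - tm (corr q) ρ‖ := by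
          have := Complex.abs_re_le_norm (tm (corr g) ρ - tm (corr q) ρ)
          rw [Complex.sub_re] at this
          have := (abs_le.mp this).1
          linarith
        linarith
  -- summation
  have S1r := Complex.reCLM.summable S1
  have S2r := Complex.reCLM.summable S2
  have r1 : (∑' ρ : Zr, tm (corr g) ρ).re = ∑' ρ : Zr, (tm (corr g) ρ).re := Complex.reCLM.map_tsum S1
  have r2 : (∑' ρ : Zr, tm (corr q) ρ).re = ∑' ρ : Zr, (tm (corr q) ρ).re := Complex.reCLM.map_tsum S2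
  rw [r1, r2]
  have h6 : ∑' ρ : Zr, ((tm (corr q) ρ).re - K * (mm ρ / (1 + |(zz ρ).im|) ^ (2 : ℝ))) ≤
      ∑' ρ : Zr, (tm (corr g) ρ).re := (S2r.sub S3).tsum_le_tsum hterm S1r
  have h7 : ∑' ρ : Zr, ((tm (corr q) ρ).re - K * (mm ρ / (1 + |(zz ρ).im|) ^ (2 : ℝ))) =
      ∑' ρ : Zr, (tm (corr q) ρ).re - K * ZZ := by
    have := S2r.tsum_sub S3
    simp only [Complex.reCLM_apply] at this
    rw [this, tsum_mul_left]
    rfl
  rw [h7] at h6
  refine le_trans (le_of_eq ?_) h6
  rw [hK, hB]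
  ring

end Pool.Agent.Helper42.WB
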