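import Pool.Agent.Helper42.WB.Rz

set_option autoImplicit false

/-!
# The high pass filter
-/

namespace Pool.Agent.Helper42.WB

open Complex Filter Topology Set MeasureTheory
open scoped ComplexConjugate ContDiff Convolution
open Pool.Agent.Helper61.W

variable {g : ℝ → ℂ}

/-- the box kernel -/
noncomputable def box (b : ℝ) : ℝ → ℂ := (Icc (-b) b).indicator fun _ => ((2 * b : ℝ) : ℂ)⁻¹

lemma box_supp (b : ℝ) : HasCompactSupport (box b) := by
  apply HasCompactSupport.intro (isCompact_Icc (a := -b) (b := b))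
  intro x hx
  exact indicator_of_notMem hx _

lemma box_mul_int (b : ℝ) {k : ℝ → ℂ} (hk : Continuous k) : Integrable (fun x => box b x * k x) := by
  have h1 : IntegrableOn (fun x => ((2 * b : ℝ) : ℂ)⁻¹ * k x) (Icc (-b) b) :=
    (Continuous.continuousOn (by fun_prop)).integrableOn_compact isCompact_Icc
  have h2 := h1.integrable_indicator measurableSet_Icc
  refine h2.congr (Eventually.of_forall fun x => ?_)
  unfold box
  by_cases hx : x ∈ Icc (-b) b
  · simp [indicator_of_mem hx]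
  · simp [indicator_of_notMem hx]

lemma box_int (b : ℝ) : Integrable (box b) := by
  have := box_mul_int b (k := fun _ => 1) continuous_const
  simpa using this

/-- the average -/
noncomputable def av (b : ℝ) (g : ℝ → ℂ) : ℝ → ℂ := (box b) ⋆[ContinuousLinearMap.mul ℝ ℂ, volume] g

lemma TF.av (b : ℝ) (h : TF g) : TF (av b g) where
  smooth := h.supp.contDiff_convolution_right _ (box_int b).locallyIntegrable h.smooth
  supp := (box_supp b).convolution _ h.supp

lemma av_supp {b c : ℝ} (hs : ∀ x, x ∉ Icc (-c) c → g x = 0) :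
    ∀ x, x ∉ Icc (-(c + b)) (c + b) → av b g x = 0 := by
  intro x hx
  unfold av
  rw [convolution_def]
  have : ∀ t : ℝ, (ContinuousLinearMap.mul ℝ ℂ) (box b t) (g (x - t)) = 0 := by
    intro t
    simp only [ContinuousLinearMap.mul_apply']
    by_cases ht : t ∈ Icc (-b) b
    · rw [hs (x - t), mul_zero]
      intro h1
      apply hx
      have h2 := h1.1
      have h3 := h1.2
      have h4 := ht.1
      have h5 := ht.2
      constructor <;> linarith
    · unfold box
      rw [indicator_of_notMem ht, zero_mul]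
  simp [this]

/-- the symbol -/
noncomputable def Sb (b : ℝ) (z : ℂ) : ℂ := LT (box b) z

lemma LT_av (b : ℝ) (h : TF g) (z : ℂ) : LT (av b g) z = Sb b z * LT g z := by
  have e1 : LT (av b g) z = ∫ u : ℝ, ((fun y : ℝ => box b y * cexp (z * y)) ⋆[ContinuousLinearMap.mul ℝ ℂ, volume]
      (fun y : ℝ => g y * cexp (z * y))) u := by
    unfold Helper61.W.LT
    congr 1
    funext u
    unfold av
    rw [convolution_def, convolution_def, ← integral_mul_const]
    congr 1
    funext y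
    simp only [ContinuousLinearMap.mul_apply']
    have : cexp (z * u) = cexp (z * y) * cexp (z * ((u - y : ℝ) : ℂ)) := by
      rw [← Complex.exp_add]
      congr 1
      push_cast
      ring
    rw [this]
    ring
  rw [e1, integral_convolution _ (box_mul_int b (by fun_prop)) (h.integrable z)]
  rfl

lemma Sb_eq {b : ℝ} (hb : 0 < b) {z : ℂ} (hz : z ≠ 0) :
    Sb b z = (cexp (b * z) - cexp (-(b * z))) / (2 * b * z) := by
  unfold Sb Helper61.W.LT box
  have e : ∀ u : ℝ, (Icc (-b) b).indicator (fun _ => ((2 * b : ℝ) : ℂ)⁻¹) u * cexp (z * u) =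
      (Icc (-b) b).indicator (fun u : ℝ => ((2 * b : ℝ) : ℂ)⁻¹ * cexp (z * u)) u := by
    intro u
    by_cases hu : u ∈ Icc (-b) b
    · simp [indicator_of_mem hu]
    · simp [indicator_of_notMem hu]
  rw [integral_congr_ae (Eventually.of_forall e), integral_indicator measurableSet_Icc,
    integral_Icc_eq_integral_Ioc, ← intervalIntegral.integral_of_le (by linarith),
    intervalIntegral.integral_const_mul, integral_exp_mul_complex hz]
  have hb' : (b : ℂ) ≠ 0 := by exact_mod_cast hb.ne'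
  push_cast
  have e2 : z * -(b : ℂ) = -(b * z) := by ring
  have e3 : z * (b : ℂ) = b * z := by ring
  rw [e2, e3]
  field_simp

lemma Sb_zero {b : ℝ} (hb : 0 < b) : Sb b 0 = 1 := by
  unfold Sb Helper61.W.LT box
  have e : ∀ u : ℝ, (Icc (-b) b).indicator (fun _ => ((2 * b : ℝ) : ℂ)⁻¹) u * cexp (0 * u) =
      (Icc (-b) b).indicator (fun u : ℝ => ((2 * b : ℝ) : ℂ)⁻¹) u := by
    intro u
    simp
  rw [integral_congr_ae (Eventually.of_forall e), integral_indicator measurableSet_Icc,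
    integral_Icc_eq_integral_Ioc, ← intervalIntegral.integral_of_le (by linarith),
    intervalIntegral.integral_const]
  have hb' : (b : ℂ) ≠ 0 := by exact_mod_cast hb.ne'
  rw [Complex.real_smul]
  push_cast
  field_simp
  ring

lemma Sb_symm {b : ℝ} (hb : 0 < b) (z : ℂ) : Sb b (-conj z) = conj (Sb b z) := by
  by_cases hz : z = 0
  · subst hz
    rw [map_zero, neg_zero, Sb_zero hb, map_one]
  · have hz' : -conj z ≠ 0 := by
      rw [neg_ne_zero]
      intro h
      apply hz
      have := congrArg conj h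
      simpa using this
    rw [Sb_eq hb hz, Sb_eq hb hz', map_div₀, map_sub, ← Complex.exp_conj, ← Complex.exp_conj]
    simp only [map_neg, map_mul, Complex.conj_ofReal, map_ofNat]
    rw [show (b : ℂ) * -conj z = -(b * conj z) by ring, neg_neg,
      show 2 * (b : ℂ) * -conj z = -(2 * b * conj z) by ring, div_neg, ← neg_div, neg_sub]

lemma Sb_line {b : ℝ} (hb : 0 < b) (t : ℝ) : Sb b (t * I) = ((Real.sinc (b * t) : ℝ) : ℂ) := by
  by_cases ht : t = 0
  · subst ht
    simp [Sb_zero hb]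
  · have hz : (t : ℂ) * I ≠ 0 := mul_ne_zero (by exact_mod_cast ht) I_ne_zero
    rw [Sb_eq hb hz, Real.sinc_of_ne_zero (mul_ne_zero hb.ne' ht)]
    have e1 : (b : ℂ) * (t * I) = ((b * t : ℝ) : ℂ) * I := by push_cast; ring
    rw [e1]
    push_cast
    rw [Complex.sin]
    have hb' : (b : ℂ) ≠ 0 := by exact_mod_cast hb.ne'
    have ht' : (t : ℂ) ≠ 0 := by exact_mod_cast ht
    rw [show -((b : ℂ) * t * I) = -(b * t) * I by ring]
    field_simp
    rw [I_sq]
    ring

lemma Sb_norm {b : ℝ} (hb : 0 < b) (hb1 : b ≤ 1) {z : ℂ} (hz : |z.re| ≤ 1 / 2) (hy : z.im ≠ 0) :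
    ‖Sb b z‖ ≤ 2 / (b * |z.im|) := by
  have hz0 : z ≠ 0 := by
    rintro rfl
    simp at hy
  have hyp : 0 < |z.im| := abs_pos.mpr hy
  rw [Sb_eq hb hz0, norm_div]
  have hr := abs_le.mp hz
  have h0 : ∀ x : ℝ, x ≤ 1 / 2 → Real.exp x ≤ 2 := by
    intro x hx
    calc Real.exp x ≤ Real.exp (1 / 2) := Real.exp_le_exp.mpr hx
      _ ≤ 2 := by
        have h1 : Real.exp (1 / 2) ^ 2 = Real.exp 1 := by
          rw [← Real.exp_nat_mul]; norm_num
        have h2 := Real.exp_one_lt_d9
        nlinarith [Real.exp_pos (1 / 2)]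
  have h1 : ‖cexp (b * z)‖ ≤ 2 := by
    rw [Complex.norm_exp]
    apply h0
    have : ((b : ℂ) * z).re = b * z.re := by simp
    rw [this]
    nlinarith
  have h2 : ‖cexp (-(b * z))‖ ≤ 2 := by
    rw [Complex.norm_exp]
    apply h0
    have : (-((b : ℂ) * z)).re = -(b * z.re) := by simp
    rw [this]
    nlinarith
  have h3 : ‖cexp (b * z) - cexp (-(b * z))‖ ≤ 4 := (norm_sub_le _ _).trans (by linarith)
  have h4 : ‖(2 * b * z : ℂ)‖ = 2 * b * ‖z‖ := by
    rw [norm_mul, norm_mul, Complex.norm_real, Real.norm_of_nonneg hb.le]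
    norm_num
  rw [h4]
  have h5 : |z.im| ≤ ‖z‖ := Complex.abs_im_le_norm z
  calc ‖cexp (b * z) - cexp (-(b * z))‖ / (2 * b * ‖z‖) ≤ 4 / (2 * b * |z.im|) := by gcongr
    _ = 2 / (b * |z.im|) := by
      field_simp
      norm_num

/-- the filter -/
noncomputable def fl (b : ℝ) (g : ℝ → ℂ) : ℝ → ℂ := fun x => g x - av b (av b (av b (av b g))) x

lemma TF.fl (b : ℝ) (h : TF g) : TF (fl b g) := by
  have h4 := TF.av b (TF.av b (TF.av b (TF.av b h)))
  exact ⟨h.smooth.sub h4.smooth, h.supp.sub h4.supp⟩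

lemma fl_supp {b c : ℝ} (hb : 0 < b) (hs : ∀ x, x ∉ Icc (-c) c → g x = 0) :
    ∀ x, x ∉ Icc (-(c + 4 * b)) (c + 4 * b) → fl b g x = 0 := by
  intro x hx
  unfold fl
  have h4 := av_supp (b := b) (av_supp (b := b) (av_supp (b := b) (av_supp (b := b) hs)))
  rw [h4, hs, sub_zero]
  · intro h1
    apply hx
    exact ⟨by linarith [h1.1], by linarith [h1.2]⟩
  · intro h1
    apply hx
    exact ⟨by linarith [h1.1], by linarith [h1.2]⟩

lemma LT_fl (b : ℝ) (h : TF g) (z : ℂ) : LT (fl b g) z = (1 - Sb b z ^ 4) * LT g z := by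
  have h1 := TF.av b h
  have h2 := TF.av b h1
  have h3 := TF.av b h2
  have h4 := TF.av b h3
  have e : LT (fl b g) z = LT g z - LT (av b (av b (av b (av b g)))) z := by
    unfold Helper61.W.LT fl
    rw [← integral_sub (h.integrable z) (h4.integrable z)]
    congr 1
    funext u
    ring
  rw [e, LT_av b h3, LT_av b h2, LT_av b h1, LT_av b h]
  ring

/-- the iterated filter -/
noncomputable def flm (b : ℝ) (m : ℕ) (g : ℝ → ℂ) : ℝ → ℂ := (fl b)^[m] g

lemma TF.flm (b : ℝ) (h : TF g) (m : ℕ) : TF (flm b m g) := by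
  induction m with
  | zero => exact h
  | succ m ih =>
    unfold WB.flm at ih ⊢
    rw [Function.iterate_succ_apply']
    exact TF.fl b ih

lemma LT_flm (b : ℝ) (h : TF g) (m : ℕ) (z : ℂ) : LT (flm b m g) z = (1 - Sb b z ^ 4) ^ m * LT g z := by
  induction m with
  | zero => simp [flm]
  | succ m ih =>
    have h1 := TF.flm b h m
    unfold flm at h1 ih ⊢
    rw [Function.iterate_succ_apply', LT_fl b h1, ih, pow_succ]
    ring

lemma flm_supp {b c : ℝ} (hb : 0 < b) (hs : ∀ x, x ∉ Icc (-c) c → g x = 0) (m : ℕ) :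
    ∀ x, x ∉ Icc (-(c + 4 * b * m)) (c + 4 * b * m) → flm b m g x = 0 := by
  induction m with
  | zero => simpa [flm] using hs
  | succ m ih =>
    unfold flm at ih ⊢
    rw [Function.iterate_succ_apply']
    have := fl_supp hb ih
    have e : c + 4 * b * m + 4 * b = c + 4 * b * ((m + 1 : ℕ) : ℝ) := by push_cast; ring
    rwa [e] at this

/-- the multiplier on the line -/
noncomputable def ww (x : ℝ) : ℝ := 1 - Real.sinc x ^ 4

lemma ww_le_one (x : ℝ) : ww x ≤ 1 := by unfold ww; nlinarith [sq_nonneg (Real.sinc x ^ 2)]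

lemma ww_nonneg (x : ℝ) : 0 ≤ ww x := by
  unfold ww
  have h1 := Real.abs_sinc_le_one x
  have h2 : Real.sinc x ^ 4 = |Real.sinc x| ^ 4 := by
    rw [← abs_pow, abs_of_nonneg (by positivity)]
  rw [h2]
  have := pow_le_one₀ (n := 4) (abs_nonneg _) h1
  linarith

lemma ww_cont : Continuous ww := by
  unfold ww
  have := Real.continuous_sinc
  fun_prop

lemma ww_neg (x : ℝ) : ww (-x) = ww x := by unfold ww; rw [Real.sinc_neg]

lemma ww_abs (x : ℝ) : ww |x| = ww x := by
  rcases abs_cases x with ⟨h, _⟩ | ⟨h, _⟩ <;> rw [h]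
  exact ww_neg x

lemma ww_le_sq (x : ℝ) : ww x ≤ x ^ 2 := by
  rw [← ww_abs, ← sq_abs]
  obtain ⟨y, hy⟩ : ∃ y, y = |x| := ⟨_, rfl⟩
  rw [← hy]
  have hy0 : 0 ≤ y := by rw [hy]; positivity
  rcases hy0.eq_or_lt with h0 | h0
  · rw [← h0]
    unfold ww
    simp
  by_cases h1 : 1 < y
  · have := ww_le_one y
    nlinarith
  · push Not at h1
    have h2 := Real.sin_ge_sub_cube hy0
    have h3 : 1 - y ^ 2 / 6 ≤ Real.sinc y := by
      rw [Real.sinc_of_ne_zero h0.ne', le_div_iff₀ h0]
      nlinarith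
    have h4 : (1 - y ^ 2 / 6) ^ 4 ≤ Real.sinc y ^ 4 := by
      apply pow_le_pow_left₀ _ h3
      nlinarith
    have h5 := one_add_mul_le_pow (a := -(y ^ 2 / 6)) (by nlinarith) 4
    unfold ww
    have h6 : (1 + -(y ^ 2 / 6)) ^ 4 = (1 - y ^ 2 / 6) ^ 4 := by ring
    rw [h6] at h5
    norm_num at h5
    nlinarith

lemma ww_ge {a x : ℝ} (ha : 0 < a) (ha3 : a ≤ 3) (hx : a ≤ |x|) : a ^ 2 / 20 ≤ ww x := by
  rw [← ww_abs]
  obtain ⟨y, hy⟩ : ∃ y, y = |x| := ⟨_, rfl⟩
  rw [← hy] at hx ⊢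
  have hy0 : 0 < y := lt_of_lt_of_le ha hx
  unfold ww
  have hsc := Real.abs_sinc_le_one y
  have e4 : Real.sinc y ^ 4 = |Real.sinc y| ^ 4 := by
    rw [← abs_pow, abs_of_nonneg (by positivity)]
  rw [e4]
  have hle : |Real.sinc y| ^ 4 ≤ |Real.sinc y| := by
    calc |Real.sinc y| ^ 4 ≤ |Real.sinc y| ^ 1 := pow_le_pow_of_le_one (abs_nonneg _) hsc (by norm_num)
      _ = _ := pow_one _
  by_cases h3 : y ≤ 3
  · have h5 : |Real.sinc y| ≤ Real.cos (y / 2) := by
      have hc0 : 0 ≤ Real.cos (y / 2) := Real.cos_nonneg_of_mem_Icc ⟨by linarith [Real.pi_pos], by linarith [Real.pi_gt_three]⟩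
      rw [Real.sinc_of_ne_zero hy0.ne', abs_div, abs_of_pos hy0, div_le_iff₀ hy0]
      have e : Real.sin y = 2 * Real.sin (y / 2) * Real.cos (y / 2) := by
        rw [← Real.sin_two_mul]
        congr 1
        ring
      rw [e, abs_mul, abs_mul, abs_of_nonneg hc0, abs_two]
      have h6 : |Real.sin (y / 2)| ≤ |y / 2| := Real.abs_sin_le_abs
      rw [abs_of_pos (show 0 < y / 2 by positivity)] at h6
      nlinarith
    have h6 : Real.cos (y / 2) ≤ 1 - 2 / Real.pi ^ 2 * (y / 2) ^ 2 := by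
      apply Real.cos_le_one_sub_mul_cos_sq
      rw [abs_of_pos (by positivity)]
      linarith [Real.pi_gt_three]
    have h7 : Real.pi ^ 2 ≤ 10 := by
      have := Real.pi_lt_d2
      nlinarith [Real.pi_pos]
    have h8 : y ^ 2 / 20 ≤ 2 / Real.pi ^ 2 * (y / 2) ^ 2 := by
      have : 2 / Real.pi ^ 2 * (y / 2) ^ 2 = y ^ 2 / (2 * Real.pi ^ 2) := by
        field_simp
      rw [this]
      have hp := Real.pi_pos
      gcongr
      linarith
    have h9 : a ^ 2 / 20 ≤ y ^ 2 / 20 := by gcongr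
    linarith
  · push Not at h3
    have h5 : |Real.sinc y| ≤ 1 / 3 := by
      rw [Real.sinc_of_ne_zero hy0.ne', abs_div, abs_of_pos hy0, div_le_iff₀ hy0]
      have := Real.abs_sin_le_one y
      linarith
    have h6 : |Real.sinc y| ^ 4 ≤ (1 / 3) ^ 4 := by gcongr
    norm_num at h6
    nlinarith

lemma Sb_line4 {b : ℝ} (hb : 0 < b) (t : ℝ) : 1 - Sb b (t * I) ^ 4 = ((ww (b * t) : ℝ) : ℂ) := by
  rw [Sb_line hb]
  unfold ww
  push_cast
  ring

lemma den_flm {b : ℝ} (hb : 0 < b) (h : TF g) (m : ℕ) (t : ℝ) :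
    den (flm b m g) t = den g t * ww (b * t) ^ (2 * m) := by
  unfold den
  rw [LT_flm b h, Sb_line4 hb, norm_mul, norm_pow, Complex.norm_real, Real.norm_of_nonneg (ww_nonneg _),
    mul_pow, ← pow_mul]
  ring

end Pool.Agent.Helper42.WB
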