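import Pool.Agent.Helper42.WB.Er

set_option autoImplicit false

/-!
# Zeros beyond `exp (C e^(L/2))` are not seen by Weil's form on an interval of length `L`
-/

namespace Pool.Agent.Helper42.WB

open Complex Filter Topology Set MeasureTheory
open scoped ComplexConjugate ContDiff
open Pool.Agent.Helper61.W
open Pool.Agent.V11271.LI (Zr mm cfg_zeta zz)

variable {g : ℝ → ℂ}

lemma corr_van {c u : ℝ} (hs : ∀ x, x ∉ Icc (-(c / 2)) (c / 2) → g x = 0) (hu : c < |u|) : corr g u = 0 :=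
  corr_zero_of hs (by linarith)

/-- the filtered function lives at high frequencies -/
theorem high (h : TF g) {L : ℝ} (hL : 0 < L) (hs : ∀ x, x ∉ Icc (-(L / 2)) (L / 2) → g x = 0)
    {N n : ℕ} (hN : 1 ≤ N) (hnN : N ≤ n) (hn : 960 * L * N ≤ n) :
    (∫ t in {t : ℝ | ¬ 3 * (N : ℝ) < |t|}, den (flm (1 / (16 * n)) (2 * n) g) t ≤
      ∫ t in {t : ℝ | 3 * (N : ℝ) < |t|}, den (flm (1 / (16 * n)) (2 * n) g) t) ∧
    ∃ K : ℝ, 0 ≤ K ∧ en g ≤ K * en (flm (1 / (16 * n)) (2 * n) g) := by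
  have hNr : (1 : ℝ) ≤ N := by exact_mod_cast hN
  have hn1 : 1 ≤ n := hN.trans hnN
  have hnr : (1 : ℝ) ≤ n := by exact_mod_cast hn1
  have hnNr : (N : ℝ) ≤ n := by exact_mod_cast hnN
  set b : ℝ := 1 / (16 * n) with hb
  have hb0 : 0 < b := by positivity
  set q := flm b (2 * n) g with hq
  have hqT : TF q := TF.flm b h (2 * n)
  set A : ℝ := 30 * N with hA
  have hA0 : 0 < A := by positivity
  have hR := remez h hL hA0 (fun u hu => corr_van hs hu) (n := n) (by rw [hA]; linarith)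
  have hden := integrable_den0 h
  have hdenq := integrable_den0 hqT
  have hbA0 : 0 < b * A := by positivity
  have hbA3 : b * A ≤ 3 := by
    rw [hb, hA, one_div, inv_mul_le_iff₀ (by positivity)]
    linarith
  -- low frequencies
  set κ : ℝ := (b * (3 * N)) ^ 2 with hκ
  have hκ0 : 0 < κ := by positivity
  have hlow : ∀ t, ¬ 3 * (N : ℝ) < |t| → den q t ≤ κ ^ (2 * (2 * n)) * den g t := by
    intro t ht
    push Not at ht
    rw [hq, den_flm hb0 h, mul_comm]
    have h1 : ww (b * t) ≤ κ := by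
      refine (ww_le_sq _).trans ?_
      rw [hκ, mul_pow, mul_pow, ← sq_abs t]
      gcongr
    have h2 := den_nonneg g t
    have h3 := ww_nonneg (b * t)
    gcongr
  -- high frequencies
  set θ : ℝ := (b * A) ^ 2 / 20 with hθ
  have hθ0 : 0 < θ := by positivity
  have hhigh : ∀ t, A < |t| → θ ^ (2 * (2 * n)) * den g t ≤ den q t := by
    intro t ht
    rw [hq, den_flm hb0 h, mul_comm]
    have h1 : θ ≤ ww (b * t) := by
      refine ww_ge hbA0 hbA3 ?_
      rw [abs_mul, abs_of_pos hb0]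
      gcongr
    have h2 := den_nonneg g t
    gcongr
  have hκθ : κ = 1 / 5 * θ := by
    rw [hκ, hθ, hA]
    ring
  have hmA : MeasurableSet {t : ℝ | A < |t|} := measurableSet_lt measurable_const measurable_abs
  have hmN : MeasurableSet {t : ℝ | 3 * (N : ℝ) < |t|} := measurableSet_lt measurable_const measurable_abs
  have hmNc : MeasurableSet {t : ℝ | ¬ 3 * (N : ℝ) < |t|} := hmN.compl
  have h1 : θ ^ (2 * (2 * n)) * ∫ t in {t : ℝ | A < |t|}, den g t ≤ ∫ t in {t : ℝ | A < |t|}, den q t := by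
    rw [← integral_const_mul]
    exact setIntegral_mono_on (hden.const_mul _).integrableOn hdenq.integrableOn hmA fun t ht => hhigh t ht
  have h2 : ∫ t in {t : ℝ | A < |t|}, den q t ≤ ∫ t in {t : ℝ | 3 * (N : ℝ) < |t|}, den q t := by
    apply setIntegral_mono_set hdenq.integrableOn (Eventually.of_forall fun t => den_nonneg q t)
    apply LE.le.eventuallyLE
    intro t ht
    have ht' : A < |t| := ht
    show 3 * (N : ℝ) < |t|
    rw [hA] at ht'
    linarith
  have h3 : ∫ t in {t : ℝ | 3 * (N : ℝ) < |t|}, den q t ≤ ∫ t, den q t :=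
    setIntegral_le_integral hdenq (Eventually.of_forall fun t => den_nonneg q t)
  have h0 : 0 ≤ ∫ t in {t : ℝ | A < |t|}, den g t := setIntegral_nonneg hmA fun t _ => den_nonneg g t
  refine ⟨?_, ?_⟩
  · have h4 : ∫ t in {t : ℝ | ¬ 3 * (N : ℝ) < |t|}, den q t ≤ κ ^ (2 * (2 * n)) * ∫ t, den g t := by
      have h5 : ∫ t in {t : ℝ | ¬ 3 * (N : ℝ) < |t|}, den q t ≤
          ∫ t in {t : ℝ | ¬ 3 * (N : ℝ) < |t|}, κ ^ (2 * (2 * n)) * den g t :=
        setIntegral_mono_on hdenq.integrableOn (hden.const_mul _).integrableOn hmNc fun t ht => hlow t ht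
      refine h5.trans ?_
      rw [← integral_const_mul]
      exact setIntegral_le_integral (hden.const_mul _)
        (Eventually.of_forall fun t => by have := den_nonneg g t; positivity)
    have h6 : κ ^ (2 * (2 * n)) * (2 * 16 ^ n) ≤ θ ^ (2 * (2 * n)) := by
      rw [hκθ, mul_pow]
      have e1 : ((1 : ℝ) / 5) ^ (2 * (2 * n)) * (2 * 16 ^ n) = 2 * (16 / 625) ^ n := by
        have : 2 * (2 * n) = 4 * n := by ring
        rw [this, pow_mul]
        rw [show ((1 : ℝ) / 5) ^ 4 = 1 / 625 by norm_num]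
        rw [show (16 : ℝ) / 625 = 1 / 625 * 16 by norm_num, mul_pow]
        ring
      have h7 : 2 * ((16 : ℝ) / 625) ^ n ≤ 1 := by
        have : ((16 : ℝ) / 625) ^ n ≤ (16 / 625) ^ 1 := pow_le_pow_of_le_one (by norm_num) (by norm_num) hn1
        norm_num at this
        linarith
      calc (1 / 5 : ℝ) ^ (2 * (2 * n)) * θ ^ (2 * (2 * n)) * (2 * 16 ^ n) =
            ((1 / 5 : ℝ) ^ (2 * (2 * n)) * (2 * 16 ^ n)) * θ ^ (2 * (2 * n)) := by ring
        _ ≤ 1 * θ ^ (2 * (2 * n)) := by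
          rw [e1]
          exact mul_le_mul_of_nonneg_right h7 (by positivity)
        _ = _ := one_mul _
    calc ∫ t in {t : ℝ | ¬ 3 * (N : ℝ) < |t|}, den q t ≤ κ ^ (2 * (2 * n)) * ∫ t, den g t := h4
      _ ≤ κ ^ (2 * (2 * n)) * (2 * 16 ^ n * ∫ t in {t : ℝ | A < |t|}, den g t) := by gcongr
      _ = κ ^ (2 * (2 * n)) * (2 * 16 ^ n) * ∫ t in {t : ℝ | A < |t|}, den g t := by ring
      _ ≤ θ ^ (2 * (2 * n)) * ∫ t in {t : ℝ | A < |t|}, den g t := by gcongr
      _ ≤ _ := h1.trans h2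
  · refine ⟨2 * 16 ^ n / θ ^ (2 * (2 * n)), by positivity, ?_⟩
    have hp := Real.pi_pos
    have e1 := en_eq h
    have e2 := en_eq hqT
    have h5 : ∫ t, den g t ≤ 2 * 16 ^ n / θ ^ (2 * (2 * n)) * ∫ t, den q t := by
      refine hR.trans ?_
      have h6 : ∫ t in {t : ℝ | A < |t|}, den g t ≤ (∫ t, den q t) / θ ^ (2 * (2 * n)) := by
        rw [le_div_iff₀ (by positivity), mul_comm]
        exact h1.trans (h2.trans h3)
      calc 2 * 16 ^ n * ∫ t in {t : ℝ | A < |t|}, den g t ≤ 2 * 16 ^ n * ((∫ t, den q t) / θ ^ (2 * (2 * n))) := by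
            gcongr
        _ = _ := by ring
    rw [e1, e2] at h5
    have h7 : 2 * Real.pi * en g ≤ 2 * Real.pi * (2 * 16 ^ n / θ ^ (2 * (2 * n)) * en q) := by
      linarith
    exact le_of_mul_le_mul_left h7 (by positivity)

lemma en_pos (h : TF g) (h0 : g ≠ 0) : 0 < en g := by
  rw [en_eq_sq]
  have hcont := h.cont
  obtain ⟨x0, hx0⟩ : ∃ x, g x ≠ 0 := by
    by_contra hne
    push Not at hne
    exact h0 (funext hne)
  have hc2 : Continuous fun x => ‖g x‖ ^ 2 := by fun_prop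
  have hs2 : HasCompactSupport fun x => ‖g x‖ ^ 2 := by
    have := h.supp.norm
    exact this.comp_left (g := fun y : ℝ => y ^ 2) (by simp)
  refine hc2.integral_pos_of_hasCompactSupport_nonneg_nonzero (x := x0) hs2 (fun x => by positivity) ?_
  have : 0 < ‖g x0‖ := norm_pos_iff.mpr hx0
  positivity

/-- positivity, with explicit parameters -/
theorem core (h : TF g) (h0 : g ≠ 0) {L : ℝ} (hL : 0 < L)
    (hs : ∀ x, x ∉ Icc (-(L / 2)) (L / 2) → g x = 0)
    {N n : ℕ} (hN : 1 ≤ N) (hnN : N ≤ n) (hn : 960 * L * N ≤ n)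
    (hM : 2 * (4 * Real.exp ((L + 1) / 2) + 3 + 2 * ∑ n ∈ Finset.range (⌊Real.exp (L + 1)⌋₊ + 1),
        ArithmeticFunction.vonMangoldt n / Real.sqrt n) + 3 ≤ Real.log (N + 1))
    {H : ℝ} (hH1 : 1 ≤ H) (hHn : 64 * n * (16 * n) ^ 4 * 2 ≤ H ^ 4)
    (hH2 : 2 * (16 * n * (64 * (16 * n) ^ 4) * ((L + 1) * Real.exp ((L + 1) / 2)) * ZZ) ≤ H ^ 2)
    (hz : ∀ ρ : Zr, |(ρ : ℂ).im| < H → (ρ : ℂ).re ≠ 1 / 2 →
      LT g ((ρ : ℂ) - 1 / 2) = 0 ∨ LT g (1 / 2 - conj (ρ : ℂ)) = 0) :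
    0 < (∑' ρ : Zr, tm (corr g) ρ).re := by
  have hNr : (1 : ℝ) ≤ N := by exact_mod_cast hN
  have hn1 : 1 ≤ n := hN.trans hnN
  have hnr : (1 : ℝ) ≤ n := by exact_mod_cast hn1
  have hcmp := compare h hL hs hn1 hH1 hHn hz
  obtain ⟨hlh, K, hK0, hK⟩ := high h hL hs hN hnN hn
  set b : ℝ := 1 / (16 * n) with hb
  have hb0 : 0 < b := by positivity
  set q := flm b (2 * n) g with hq
  have hqT : TF q := TF.flm b h (2 * n)
  have hqs : ∀ x, x ∉ Icc (-((L + 1) / 2)) ((L + 1) / 2) → q x = 0 := by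
    have h1 := flm_supp hb0 hs (2 * n)
    have e : L / 2 + 4 * b * ((2 * n : ℕ) : ℝ) = (L + 1) / 2 := by
      rw [hb]
      push_cast
      field_simp
      ring
    rwa [e] at h1
  have henq : 0 < en q := by
    have h1 := en_pos h h0
    have h2 : 0 < K * en q := lt_of_lt_of_le h1 hK
    by_contra h3
    push Not at h3
    have h4 : en q = 0 := le_antisymm h3 (en_nonneg q)
    rw [h4, mul_zero] at h2
    exact lt_irrefl _ h2
  have hlow := weil_lower hqT (ℓ := L + 1) (by linarith) (fun u hu => corr_van hqs hu) N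
  set M : ℝ := 4 * Real.exp ((L + 1) / 2) + 3 + 2 * ∑ n ∈ Finset.range (⌊Real.exp (L + 1)⌋₊ + 1),
        ArithmeticFunction.vonMangoldt n / Real.sqrt n with hMd
  -- the archimedean integral
  have hdenq := integrable_den0 hqT
  have hmN : MeasurableSet {t : ℝ | 3 * (N : ℝ) < |t|} := measurableSet_lt measurable_const measurable_abs
  have hpi := Real.pi_pos
  have hlog0 : 0 ≤ Real.log (N + 1) - 1 := by
    have h1 : 0 ≤ ∑ n ∈ Finset.range (⌊Real.exp (L + 1)⌋₊ + 1),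
        ArithmeticFunction.vonMangoldt n / Real.sqrt n := Finset.sum_nonneg fun n _ => by
      have := ArithmeticFunction.vonMangoldt_nonneg (n := n)
      positivity
    have h2 := Real.exp_pos ((L + 1) / 2)
    have h3 : 0 ≤ M := by rw [hMd]; positivity
    linarith
  have hcontS : Continuous fun t => ∑ n ∈ Finset.range N, aw n t :=
    continuous_finsetSum _ fun n _ => aw_cont n
  have hSint : Integrable (fun t => den q t * ∑ n ∈ Finset.range N, aw n t) := by
    refine integrable_den1 hqT hcontS (K := N) fun y => ?_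
    rw [abs_of_nonneg (Finset.sum_nonneg fun n _ => aw_nonneg n y)]
    refine (Finset.sum_le_sum fun n _ => aw_le_one n y).trans ?_
    simp
  have hA1 : (Real.log (N + 1) - 1) * ∫ t in {t : ℝ | 3 * (N : ℝ) < |t|}, den q t ≤
      ∫ t, den q t * ∑ n ∈ Finset.range N, aw n t := by
    rw [← integral_const_mul]
    refine le_trans ?_ (setIntegral_le_integral (s := {t : ℝ | 3 * (N : ℝ) < |t|}) hSint
      (Eventually.of_forall fun t => mul_nonneg (den_nonneg q t) (Finset.sum_nonneg fun n _ => aw_nonneg n t)))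
    refine setIntegral_mono_on (hdenq.const_mul _).integrableOn hSint.integrableOn hmN fun t ht => ?_
    have ht' : 3 * (N : ℝ) < |t| := ht
    rw [mul_comm]
    exact mul_le_mul_of_nonneg_left (aw_sum_ge hN ht'.le) (den_nonneg q t)
  have hsplit : ∫ t, den q t = (∫ t in {t : ℝ | 3 * (N : ℝ) < |t|}, den q t) +
      ∫ t in {t : ℝ | ¬ 3 * (N : ℝ) < |t|}, den q t := (integral_add_compl hmN hdenq).symm
  rw [en_eq hqT] at hsplit
  have hhalf : Real.pi * en q ≤ ∫ t in {t : ℝ | 3 * (N : ℝ) < |t|}, den q t := by linarith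
  have hA2 : (Real.log (N + 1) - 1) * (Real.pi * en q) ≤ ∫ t, den q t * ∑ n ∈ Finset.range N, aw n t :=
    (mul_le_mul_of_nonneg_left hhalf hlog0).trans hA1
  have hA3 : (Real.log (N + 1) - 1) / 2 * en q ≤
      1 / (2 * Real.pi) * ∫ t, den q t * ∑ n ∈ Finset.range N, aw n t := by
    calc (Real.log (N + 1) - 1) / 2 * en q = 1 / (2 * Real.pi) * ((Real.log (N + 1) - 1) * (Real.pi * en q)) := by
          field_simp
      _ ≤ _ := by gcongr
  have hW : en q ≤ (∑' ρ : Zr, tm (corr q) ρ).re := by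
    refine le_trans ?_ hlow
    have h1 : (M + 1) * en q ≤ (Real.log (N + 1) - 1) / 2 * en q :=
      mul_le_mul_of_nonneg_right (by linarith) henq.le
    linarith
  -- the error
  have herr : 16 * n * (64 * (16 * n) ^ 4 / H ^ 2) * ((L + 1) * Real.exp ((L + 1) / 2)) * ZZ ≤ 1 / 2 := by
    have hH2' : 0 < H ^ 2 := by positivity
    have e : 16 * n * (64 * (16 * n) ^ 4 / H ^ 2) * ((L + 1) * Real.exp ((L + 1) / 2)) * ZZ =
        (16 * n * (64 * (16 * n) ^ 4) * ((L + 1) * Real.exp ((L + 1) / 2)) * ZZ) / H ^ 2 := by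
      field_simp
    rw [e, div_le_iff₀ hH2']
    linarith
  have h5 := mul_le_mul_of_nonneg_right herr henq.le
  linarith

/-- **Zeros beyond `exp (C e^(L/2))` are not seen.** -/
theorem partB0 : ∃ C : ℝ, 0 < C ∧ ∀ L : ℝ, 0 < L → ∀ g : ℝ → ℂ, TF g →
    (∀ x, x ∉ Icc (-(L / 2)) (L / 2) → g x = 0) → g ≠ 0 →
    (∀ ρ : Zr, |(ρ : ℂ).im| < Real.exp (C * Real.exp (L / 2)) → (ρ : ℂ).re ≠ 1 / 2 →
      LT g ((ρ : ℂ) - 1 / 2) = 0 ∨ LT g (1 / 2 - conj (ρ : ℂ)) = 0) →
    0 < (∑' ρ : Zr, tm (corr g) ρ).re := by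
  obtain ⟨C0, hC0, hC⟩ := vm_sum_le
  set c2 : ℝ := 2 * (4 * C0 + 11) + 3 with hc2
  have hZ := ZZ_nonneg
  set K : ℝ := 2 * 16 * 64 * 16 ^ 4 * 3840 ^ 5 * 4 * (ZZ + 1) with hK
  have hK1 : 1 ≤ K := by rw [hK]; linarith
  have hlK : 0 ≤ Real.log K := Real.log_nonneg hK1
  set c3 : ℝ := 5 * c2 + 7 with hc3
  refine ⟨c3 + Real.log K, by positivity, fun L hL g h hs h0 hz => ?_⟩
  obtain ⟨x, hx⟩ : ∃ x, x = Real.exp (L / 2) := ⟨_, rfl⟩
  rw [← hx] at hz
  have hxL : L / 2 + 1 ≤ x := by rw [hx]; exact Real.add_one_le_exp _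
  have hx1 : 1 ≤ x := by linarith
  have hxe : x ≤ Real.exp x := by have := Real.add_one_le_exp x; linarith
  have hhalf : Real.exp ((L + 1) / 2) ≤ 2 * x := by
    have e : Real.exp ((L + 1) / 2) = Real.exp (1 / 2) * x := by
      rw [hx, ← Real.exp_add]
      congr 1
      ring
    rw [e]
    have h1 : Real.exp (1 / 2) ≤ 2 := by
      have h1 : Real.exp (1 / 2) ^ 2 = Real.exp 1 := by
        rw [← Real.exp_nat_mul]; norm_num
      have h2 := Real.exp_one_lt_d9
      nlinarith [Real.exp_pos (1 / 2)]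
    gcongr
  -- the number of terms
  set N : ℕ := ⌈Real.exp (c2 * x)⌉₊ with hN
  have hN1 : Real.exp (c2 * x) ≤ N := Nat.le_ceil _
  have hN2 : (N : ℝ) ≤ 2 * Real.exp (c2 * x) := by
    have h1 := (Nat.ceil_lt_add_one (Real.exp_pos (c2 * x)).le).le
    have h2 : 1 ≤ Real.exp (c2 * x) := Real.one_le_exp (by positivity)
    rw [← hN] at h1
    linarith
  have hNpos : 1 ≤ N := Nat.one_le_ceil_iff.mpr (Real.exp_pos _)
  have hNr : (1 : ℝ) ≤ N := by exact_mod_cast hNpos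
  set n : ℕ := N * (⌈960 * L⌉₊ + 1) with hn
  have hnN : N ≤ n := by rw [hn]; exact Nat.le_mul_of_pos_right _ (by omega)
  have hn1 : 1 ≤ n := hNpos.trans hnN
  have hnr : (1 : ℝ) ≤ n := by exact_mod_cast hn1
  have hce : 960 * L ≤ ⌈960 * L⌉₊ := Nat.le_ceil _
  have hn960 : 960 * L * N ≤ n := by
    rw [hn]
    push_cast
    nlinarith
  have hnle : (n : ℝ) ≤ 3840 * Real.exp ((c2 + 1) * x) := by
    have h1 := (Nat.ceil_lt_add_one (show 0 ≤ 960 * L by positivity)).le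
    have h2 : ((⌈960 * L⌉₊ : ℝ) + 1) ≤ 1920 * Real.exp x := by linarith
    calc (n : ℝ) = N * ((⌈960 * L⌉₊ : ℝ) + 1) := by rw [hn]; push_cast; ring
      _ ≤ (2 * Real.exp (c2 * x)) * (1920 * Real.exp x) := by gcongr
      _ = 3840 * Real.exp ((c2 + 1) * x) := by
        rw [show (c2 + 1) * x = c2 * x + x by ring, Real.exp_add]
        ring
  have hM : 2 * (4 * Real.exp ((L + 1) / 2) + 3 + 2 * ∑ n ∈ Finset.range (⌊Real.exp (L + 1)⌋₊ + 1),
        ArithmeticFunction.vonMangoldt n / Real.sqrt n) + 3 ≤ Real.log (N + 1) := by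
    have h1 := hC (L + 1) (by linarith)
    have h2 : c2 * x ≤ Real.log (N + 1) := by
      rw [Real.le_log_iff_exp_le (by positivity)]
      linarith
    refine le_trans ?_ h2
    have h3 : C0 * Real.exp ((L + 1) / 2) ≤ C0 * (2 * x) := by gcongr
    rw [hc2]
    nlinarith
  -- the height
  set H : ℝ := Real.exp ((c3 + Real.log K) * x) with hH
  have hHK : K * Real.exp (c3 * x) ≤ H := by
    have e : H = Real.exp (c3 * x) * Real.exp (Real.log K * x) := by
      rw [hH, ← Real.exp_add]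
      congr 1
      ring
    rw [e, mul_comm]
    have h1 : K ≤ Real.exp (Real.log K * x) := by
      calc K = Real.exp (Real.log K) := (Real.exp_log (by linarith)).symm
        _ ≤ Real.exp (Real.log K * x) := Real.exp_le_exp.mpr (by nlinarith)
    exact mul_le_mul_of_nonneg_left h1 (Real.exp_pos _).le
  have hH1 : 1 ≤ H := Real.one_le_exp (by positivity)
  have hn5 : (n : ℝ) ^ 5 ≤ 3840 ^ 5 * Real.exp ((5 * c2 + 5) * x) := by
    calc (n : ℝ) ^ 5 ≤ (3840 * Real.exp ((c2 + 1) * x)) ^ 5 := by gcongr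
      _ = 3840 ^ 5 * Real.exp ((5 * c2 + 5) * x) := by
        rw [mul_pow, ← Real.exp_nat_mul]
        congr 2
        push_cast
        ring
  have hE1 : Real.exp ((5 * c2 + 5) * x) ≤ Real.exp (c3 * x) := by
    apply Real.exp_le_exp.mpr
    rw [hc3]
    nlinarith
  have hE2 : Real.exp ((5 * c2 + 5) * x) * (x * x) ≤ Real.exp (c3 * x) := by
    have h1 : x * x ≤ Real.exp (2 * x) := by
      rw [two_mul, Real.exp_add]
      gcongr
    calc Real.exp ((5 * c2 + 5) * x) * (x * x) ≤ Real.exp ((5 * c2 + 5) * x) * Real.exp (2 * x) := by gcongr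
      _ = Real.exp (c3 * x) := by
        rw [← Real.exp_add, hc3]
        congr 1
        ring
  have hHb : 64 * n * (16 * n) ^ 4 * 2 ≤ H ^ 4 := by
    have h1 : H ≤ H ^ 4 := le_self_pow₀ hH1 (by norm_num)
    refine le_trans ?_ h1
    refine le_trans ?_ hHK
    calc 64 * (n : ℝ) * (16 * n) ^ 4 * 2 = 64 * 16 ^ 4 * 2 * (n : ℝ) ^ 5 := by ring
      _ ≤ 64 * 16 ^ 4 * 2 * (3840 ^ 5 * Real.exp (c3 * x)) := by
        gcongr
        exact hn5.trans (by gcongr)
      _ ≤ K * Real.exp (c3 * x) := by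
        rw [hK]
        have := Real.exp_pos (c3 * x)
        have h2 : 0 ≤ ZZ * Real.exp (c3 * x) := by positivity
        nlinarith
  have hHc : 2 * (16 * n * (64 * (16 * n) ^ 4) * ((L + 1) * Real.exp ((L + 1) / 2)) * ZZ) ≤ H ^ 2 := by
    have h1 : H ≤ H ^ 2 := le_self_pow₀ hH1 (by norm_num)
    refine le_trans ?_ h1
    refine le_trans ?_ hHK
    have h2 : (L + 1) * Real.exp ((L + 1) / 2) ≤ (2 * x) * (2 * x) := by
      gcongr
      linarith
    calc 2 * (16 * (n : ℝ) * (64 * (16 * n) ^ 4) * ((L + 1) * Real.exp ((L + 1) / 2)) * ZZ) =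
          2 * 16 * 64 * 16 ^ 4 * (n : ℝ) ^ 5 * ((L + 1) * Real.exp ((L + 1) / 2)) * ZZ := by ring
      _ ≤ 2 * 16 * 64 * 16 ^ 4 * (3840 ^ 5 * Real.exp ((5 * c2 + 5) * x)) * ((2 * x) * (2 * x)) * (ZZ + 1) := by
        gcongr
        linarith
      _ = K * (Real.exp ((5 * c2 + 5) * x) * (x * x)) := by rw [hK]; ring
      _ ≤ K * Real.exp (c3 * x) := by gcongr
  exact core h h0 hL hs hNpos hnN hn960 hM hH1 hHb hHc hz

theorem partB : ∃ C : ℝ, 0 < C ∧ ∃ L0 : ℝ, ∀ L : ℝ, L0 ≤ L → ∀ g : ℝ → ℂ, TF g →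
    (∀ x, x ∉ Icc (-(L / 2)) (L / 2) → g x = 0) → g ≠ 0 →
    (∀ ρ : Zr, |(ρ : ℂ).im| < Real.exp (C * Real.exp (L / 2)) → (ρ : ℂ).re ≠ 1 / 2 →
      LT g ((ρ : ℂ) - 1 / 2) = 0 ∨ LT g (1 / 2 - conj (ρ : ℂ)) = 0) →
    0 < (∑' ρ : Zr, tm (corr g) ρ).re := by
  obtain ⟨C, hC, h⟩ := partB0
  exact ⟨C, hC, 1, fun L hL => h L (by linarith)⟩

end Pool.Agent.Helper42.WB
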