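import Pool.Agent.Helper61.W.Corr

set_option autoImplicit false

/-!
# A function with bounded support has energy at high frequencies
-/

namespace Pool.Agent.Helper42.WB

open Complex Filter Topology Set MeasureTheory
open scoped ComplexConjugate ContDiff
open Pool.Agent.Helper61.W

variable {g : ℝ → ℂ}

/-- the energy density on the line -/
noncomputable def den (g : ℝ → ℂ) (t : ℝ) : ℝ := ‖LT g (t * I)‖ ^ 2

lemma den_nonneg (g : ℝ → ℂ) (t : ℝ) : 0 ≤ den g t := by unfold den; positivity

lemma den_eq (h : TF g) (t : ℝ) : LT (corr g) (((0 : ℝ) : ℂ) + t * I) = ((den g t : ℝ) : ℂ) := by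
  rw [LT_corr h]
  have e : -conj ((((0 : ℝ) : ℂ)) + t * I) = ((0 : ℝ) : ℂ) + t * I := by simp
  rw [e, Complex.mul_conj, Complex.normSq_eq_norm_sq]
  unfold den
  simp

lemma den_cont (h : TF g) : Continuous (den g) := by
  unfold den
  have := LT_continuous h
  fun_prop

lemma integrable_denC (h : TF g) {k : ℝ → ℂ} (hk : Continuous k) {K : ℝ}
    (hK : ∀ y, ‖k y‖ ≤ K * (1 + y ^ 2)) : Integrable (fun t : ℝ => ((den g t : ℝ) : ℂ) * k t) := by
  have h1 := LT_line_integrable h.corr 0 hk hK
  refine h1.congr (Eventually.of_forall fun t => ?_)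
  simp only
  rw [den_eq h]

lemma integrable_denC1 (h : TF g) {k : ℝ → ℂ} (hk : Continuous k) {K : ℝ}
    (hK : ∀ y, ‖k y‖ ≤ K) : Integrable (fun t : ℝ => ((den g t : ℝ) : ℂ) * k t) := by
  refine integrable_denC h hk (K := K) fun y => ?_
  have h0 : 0 ≤ K := (norm_nonneg _).trans (hK y)
  have := hK y
  nlinarith [sq_nonneg y]

lemma integrable_den (h : TF g) {k : ℝ → ℝ} (hk : Continuous k) {K : ℝ}
    (hK : ∀ y, |k y| ≤ K * (1 + y ^ 2)) : Integrable (fun t : ℝ => den g t * k t) := by
  have h1 := (integrable_denC h (k := fun t => ((k t : ℝ) : ℂ)) (by fun_prop) (K := K) (fun y => by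
    rw [Complex.norm_real, Real.norm_eq_abs]; exact hK y)).re
  refine h1.congr (Eventually.of_forall fun t => ?_)
  simp

lemma integrable_den1 (h : TF g) {k : ℝ → ℝ} (hk : Continuous k) {K : ℝ}
    (hK : ∀ y, |k y| ≤ K) : Integrable (fun t : ℝ => den g t * k t) := by
  refine integrable_den h hk (K := K) fun y => ?_
  have h0 : 0 ≤ K := (abs_nonneg _).trans (hK y)
  have := hK y
  nlinarith [sq_nonneg y]

lemma integrable_den0 (h : TF g) : Integrable (den g) := by
  have := integrable_den1 h (k := fun _ => 1) continuous_const (K := 1) (fun y => by simp)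
  simpa using this

/-- inversion -/
lemma den_inv (h : TF g) (u : ℝ) :
    ∫ t : ℝ, ((den g t : ℝ) : ℂ) * cexp (-(t * I) * u) = 2 * Real.pi * corr g u := by
  rw [← LT_inversion h.corr 0 u]
  congr 1
  funext t
  rw [den_eq h]
  congr 2
  push_cast
  ring

/-- the autocorrelation vanishes outside -/
lemma corr_zero_of {c u : ℝ} (hs : ∀ x, x ∉ Icc (-c) c → g x = 0) (hu : 2 * c < |u|) : corr g u = 0 := by
  unfold corr
  have : ∀ y : ℝ, g y * conj (g (y - u)) = 0 := by
    intro y
    by_cases h1 : y ∈ Icc (-c) c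
    · have h2 : y - u ∉ Icc (-c) c := by
        intro h2
        have h3 := h1.1
        have h4 := h1.2
        have h5 := h2.1
        have h6 := h2.2
        rcases abs_cases u with ⟨h7, _⟩ | ⟨h7, _⟩ <;> linarith
      rw [hs _ h2]
      simp
    · rw [hs _ h1, zero_mul]
  simp [this]

open Polynomial in
lemma van (h : TF g) {L b : ℝ} (hs : ∀ u, L < |u| → corr g u = 0) {n : ℕ} (hn : 0 < n) (hb0 : 0 < b)
    (hb : L < b * n) (P : ℂ[X]) :
    ∫ t : ℝ, ((den g t : ℝ) : ℂ) * (X ^ n * P).eval (cexp (-(t * I) * b)) = 0 := by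
  have hnorm : ∀ t : ℝ, ‖cexp (-(t * I) * b)‖ = 1 := by
    intro t
    rw [Complex.norm_exp]
    simp
  have hint : ∀ p : ℂ[X], Integrable (fun t : ℝ => ((den g t : ℝ) : ℂ) * p.eval (cexp (-(t * I) * b))) := by
    intro p
    refine integrable_denC1 h (by fun_prop) (K := ∑ i ∈ Finset.range (p.natDegree + 1), ‖p.coeff i‖) fun y => ?_
    rw [Polynomial.eval_eq_sum_range]
    refine (norm_sum_le _ _).trans (Finset.sum_le_sum fun i _ => ?_)
    rw [norm_mul, norm_pow, hnorm, one_pow, mul_one]
  induction P using Polynomial.induction_on' with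
  | add p q hp hq =>
    have e : ∀ t : ℝ, ((den g t : ℝ) : ℂ) * (X ^ n * (p + q)).eval (cexp (-(t * I) * b)) =
        ((den g t : ℝ) : ℂ) * (X ^ n * p).eval (cexp (-(t * I) * b)) +
        ((den g t : ℝ) : ℂ) * (X ^ n * q).eval (cexp (-(t * I) * b)) := by
      intro t
      rw [mul_add, eval_add, mul_add]
    rw [integral_congr_ae (Eventually.of_forall e), integral_add (hint _) (hint _), hp, hq, add_zero]
  | monomial k a =>
    have e : ∀ t : ℝ, ((den g t : ℝ) : ℂ) * (X ^ n * monomial k a).eval (cexp (-(t * I) * b)) =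
        a * (((den g t : ℝ) : ℂ) * cexp (-(t * I) * ((b * (n + k) : ℝ) : ℂ))) := by
      intro t
      rw [eval_mul, eval_pow, eval_X, eval_monomial]
      have : cexp (-(t * I) * ((b * (n + k) : ℝ) : ℂ)) =
          cexp (-(t * I) * b) ^ n * cexp (-(t * I) * b) ^ k := by
        rw [← Complex.exp_nat_mul, ← Complex.exp_nat_mul, ← Complex.exp_add]
        congr 1
        push_cast
        ring
      rw [this]
      ring
    rw [integral_congr_ae (Eventually.of_forall e), integral_const_mul, den_inv h, hs, mul_zero, mul_zero]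
    rw [abs_of_pos]
    · have : (0 : ℝ) ≤ b * k := by positivity
      linarith [mul_add b (n : ℝ) k]
    · have h1 : 0 < b * n := by positivity
      have : (0 : ℝ) ≤ b * k := by positivity
      linarith [mul_add b (n : ℝ) k]

open Polynomial in
/-- **A Remez type inequality**: a function supported in an interval of length `L` has a proportion
`exp (- C L A)` of its energy at the frequencies beyond `A`. -/
theorem remez (h : TF g) {L A : ℝ} (hL : 0 < L) (hA : 0 < A)
    (hs : ∀ u, L < |u| → corr g u = 0) {n : ℕ} (hn : 32 * L * A ≤ n) :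
    ∫ t, den g t ≤ 2 * 16 ^ n * ∫ t in {t : ℝ | A < |t|}, den g t := by
  have hn0' : (0 : ℝ) < n := lt_of_lt_of_le (by positivity) hn
  have hn0 : 0 < n := by exact_mod_cast hn0'
  set b : ℝ := 2 * L / n with hb
  have hb0 : 0 < b := by positivity
  have hbn : b * n = 2 * L := by rw [hb]; field_simp
  have hbL : L < b * n := by rw [hbn]; linarith
  set z : ℝ → ℂ := fun t => cexp (-(t * I) * b) with hz
  have hz1 : ∀ t, ‖z t‖ = 1 := by
    intro t
    simp only [hz]
    rw [Complex.norm_exp]
    simp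
  have hzc : Continuous z := by simp only [hz]; fun_prop
  set Q : ℂ[X] := ∑ i ∈ Finset.range n, X ^ i * (1 - X) ^ (n - i) * ((2 * n).choose i : ℂ[X]) with hQ
  set R : ℂ[X] := ∑ i ∈ Finset.Ico n (2 * n + 1), X ^ (i - n) * (1 - X) ^ (2 * n - i) * ((2 * n).choose i : ℂ[X])
    with hR
  have hid : (1 - X) ^ n * Q + X ^ n * R = 1 := by
    have h1 : ((X : ℂ[X]) + (1 - X)) ^ (2 * n) = 1 := by
      rw [add_sub_cancel, one_pow]
    rw [add_pow, ← Finset.sum_range_add_sum_Ico _ (show n ≤ 2 * n + 1 by omega)] at h1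
    refine Eq.trans ?_ h1
    rw [hQ, hR, Finset.mul_sum, Finset.mul_sum]
    congr 1
    · refine Finset.sum_congr rfl fun i hi => ?_
      have hi' := Finset.mem_range.mp hi
      have : 2 * n - i = n + (n - i) := by omega
      rw [this, pow_add]
      ring
    · refine Finset.sum_congr rfl fun i hi => ?_
      have hi' := Finset.mem_Ico.mp hi
      have e : (X : ℂ[X]) ^ i = X ^ n * X ^ (i - n) := by
        rw [← pow_add]
        congr 1
        omega
      rw [e]
      ring
  -- the bound for Q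
  have h1z : ∀ t, ‖1 - z t‖ ≤ 2 := by
    intro t
    refine (norm_sub_le _ _).trans ?_
    rw [hz1, norm_one]
    norm_num
  have h1z' : ∀ t, ‖1 - z t‖ ≤ b * |t| := by
    intro t
    have h1 := Real.norm_exp_I_mul_ofReal_sub_one_le (x := -(b * t))
    have e : cexp (I * ((-(b * t) : ℝ) : ℂ)) = z t := by
      simp only [hz]
      congr 1
      push_cast
      ring
    rw [e, norm_sub_rev, Real.norm_eq_abs, abs_neg, abs_mul, abs_of_pos hb0] at h1
    exact h1
  have hQb : ∀ t, ‖Q.eval (z t)‖ ≤ 8 ^ n := by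
    intro t
    rw [hQ, Polynomial.eval_finsetSum]
    have h1 : ∀ i ∈ Finset.range n, ‖(X ^ i * (1 - X) ^ (n - i) * ((2 * n).choose i : ℂ[X])).eval (z t)‖ ≤
        2 ^ n * ((2 * n).choose i : ℝ) := by
      intro i hi
      have hi' := Finset.mem_range.mp hi
      simp only [eval_mul, eval_pow, eval_X, eval_sub, eval_one, eval_natCast]
      rw [norm_mul, norm_mul, norm_pow, norm_pow, hz1, one_pow, one_mul, Complex.norm_natCast]
      gcongr
      calc ‖1 - z t‖ ^ (n - i) ≤ 2 ^ (n - i) := by gcongr; exact h1z t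
        _ ≤ 2 ^ n := pow_le_pow_right₀ (by norm_num) (by omega)
    refine (norm_sum_le_of_le _ h1).trans ?_
    rw [← Finset.mul_sum]
    have h2 : ∑ i ∈ Finset.range n, ((2 * n).choose i : ℝ) ≤ 4 ^ n := by
      have h3 : ∑ i ∈ Finset.range (2 * n + 1), ((2 * n).choose i : ℝ) = 4 ^ n := by
        have := Nat.sum_range_choose (2 * n)
        have h4 : ((∑ i ∈ Finset.range (2 * n + 1), (2 * n).choose i : ℕ) : ℝ) = ((2 ^ (2 * n) : ℕ) : ℝ) := by
          rw [this]
        push_cast at h4
        rw [h4, pow_mul]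
        norm_num
      rw [← h3]
      exact Finset.sum_le_sum_of_subset_of_nonneg (Finset.range_mono (by omega)) (fun _ _ _ => by positivity)
    calc (2 : ℝ) ^ n * ∑ i ∈ Finset.range n, ((2 * n).choose i : ℝ) ≤ 2 ^ n * 4 ^ n := by gcongr
      _ = 8 ^ n := by rw [← mul_pow]; norm_num
  -- the identity
  have hI1 : Integrable (fun t : ℝ => ((den g t : ℝ) : ℂ) * ((1 - X) ^ n * Q).eval (z t)) := by
    refine integrable_denC1 h ?_ (K := 2 ^ n * 8 ^ n) fun t => ?_
    · exact (Polynomial.continuous _).comp hzc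
    · simp only [eval_mul, eval_pow, eval_X, eval_sub, eval_one]
      rw [norm_mul, norm_pow]
      gcongr
      · exact h1z t
      · exact hQb t
  have hI2 : Integrable (fun t : ℝ => ((den g t : ℝ) : ℂ) * (X ^ n * R).eval (z t)) := by
    have h1 := (integrable_denC1 h (k := fun _ => 1) continuous_const (K := 1) (fun y => by simp)).sub hI1
    refine h1.congr (Eventually.of_forall fun t => ?_)
    simp only [Pi.sub_apply]
    have e : (1 : ℂ) = ((1 - X) ^ n * Q).eval (z t) + (X ^ n * R).eval (z t) := by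
      rw [← eval_add, hid, eval_one]
    rw [← mul_sub]
    congr 1
    nth_rewrite 1 [e]
    ring
  have hmain : ((∫ t, den g t : ℝ) : ℂ) = ∫ t : ℝ, ((den g t : ℝ) : ℂ) * ((1 - X) ^ n * Q).eval (z t) := by
    rw [← integral_complex_ofReal]
    have h1 := van h hs hn0 hb0 hbL R
    calc ∫ t : ℝ, ((den g t : ℝ) : ℂ) = ∫ t : ℝ, (((den g t : ℝ) : ℂ) * ((1 - X) ^ n * Q).eval (z t) +
          ((den g t : ℝ) : ℂ) * (X ^ n * R).eval (z t)) := by
          congr 1
          funext t
          rw [← mul_add, ← eval_add, hid, eval_one, mul_one]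
      _ = _ := by
          rw [integral_add hI1 hI2]
          have : ∫ t : ℝ, ((den g t : ℝ) : ℂ) * (X ^ n * R).eval (z t) = 0 := h1
          rw [this, add_zero]
  -- the estimate
  have hden := integrable_den0 h
  have hmeas : MeasurableSet {t : ℝ | A < |t|} := measurableSet_lt measurable_const measurable_abs
  set F : ℝ → ℝ := fun t => 8 ^ n * ((b * A) ^ n * den g t) +
    8 ^ n * (2 ^ n * ({t : ℝ | A < |t|}.indicator (den g) t)) with hF
  have hFi : Integrable F := by
    simp only [hF]
    exact ((hden.const_mul _).const_mul _).add (((hden.indicator hmeas).const_mul _).const_mul _)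
  have hpt : ∀ t, ‖((den g t : ℝ) : ℂ) * ((1 - X) ^ n * Q).eval (z t)‖ ≤ F t := by
    intro t
    have hd := den_nonneg g t
    simp only [eval_mul, eval_pow, eval_X, eval_sub, eval_one]
    rw [norm_mul, norm_mul, norm_pow, Complex.norm_real, Real.norm_of_nonneg hd]
    by_cases ht : A < |t|
    · have e : {t : ℝ | A < |t|}.indicator (den g) t = den g t := indicator_of_mem (show t ∈ {t : ℝ | A < |t|} from ht) _
      simp only [hF, e]
      have h1 : ‖1 - z t‖ ^ n * ‖Q.eval (z t)‖ ≤ 2 ^ n * 8 ^ n := by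
        gcongr
        · exact h1z t
        · exact hQb t
      have h2 : 0 ≤ (8 : ℝ) ^ n * ((b * A) ^ n * den g t) := by positivity
      nlinarith [mul_le_mul_of_nonneg_left h1 hd]
    · have e : {t : ℝ | A < |t|}.indicator (den g) t = 0 := indicator_of_notMem (show t ∉ {t : ℝ | A < |t|} from ht) _
      simp only [hF, e, mul_zero, add_zero]
      have h1 : ‖1 - z t‖ ^ n * ‖Q.eval (z t)‖ ≤ (b * A) ^ n * 8 ^ n := by
        gcongr
        · exact (h1z' t).trans (by gcongr; exact not_lt.mp ht)
        · exact hQb t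
      nlinarith [mul_le_mul_of_nonneg_left h1 hd]
  have h3 : ∫ t, den g t ≤ ∫ t, F t := by
    have h4 : ‖((∫ t, den g t : ℝ) : ℂ)‖ ≤ ∫ t, F t := by
      rw [hmain]
      exact norm_integral_le_of_norm_le hFi (Eventually.of_forall hpt)
    rw [Complex.norm_real] at h4
    exact (le_abs_self _).trans h4
  have h5 : ∫ t, F t = 8 ^ n * ((b * A) ^ n * ∫ t, den g t) +
      8 ^ n * (2 ^ n * ∫ t in {t : ℝ | A < |t|}, den g t) := by
    simp only [hF]
    rw [integral_add ((hden.const_mul _).const_mul _) (((hden.indicator hmeas).const_mul _).const_mul _),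
      integral_const_mul, integral_const_mul, integral_const_mul, integral_const_mul, integral_indicator hmeas]
  rw [h5] at h3
  have h6 : (8 : ℝ) ^ n * (b * A) ^ n ≤ 1 / 2 := by
    rw [← mul_pow]
    have h7 : 8 * (b * A) ≤ 1 / 2 := by
      rw [hb]
      have : 8 * (2 * L / n * A) = 16 * L * A / n := by ring
      rw [this, div_le_iff₀ hn0']
      linarith
    calc (8 * (b * A)) ^ n ≤ (1 / 2 : ℝ) ^ n := by gcongr
      _ ≤ (1 / 2 : ℝ) ^ 1 := pow_le_pow_of_le_one (by norm_num) (by norm_num) hn0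
      _ = 1 / 2 := pow_one _
  have h8 : 0 ≤ ∫ t, den g t := integral_nonneg fun t => den_nonneg g t
  have h9 : (8 : ℝ) ^ n * 2 ^ n = 16 ^ n := by rw [← mul_pow]; norm_num
  have h10 : 8 ^ n * ((b * A) ^ n * ∫ t, den g t) ≤ 1 / 2 * ∫ t, den g t := by
    rw [← mul_assoc]
    exact mul_le_mul_of_nonneg_right h6 h8
  have h11 : 8 ^ n * (2 ^ n * ∫ t in {t : ℝ | A < |t|}, den g t) = 16 ^ n * ∫ t in {t : ℝ | A < |t|}, den g t := by
    rw [← mul_assoc, h9]
  rw [h11] at h3
  linarith

end Pool.Agent.Helper42.WB
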